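import Mathlib

set_option autoImplicit false

namespace Pool.Agent.Results.MP_290120_co.GunportDeficiency

/-! ### States of cells -/

/-- The state of a cell: outside the board, hole, left or right cell of a horizontal domino, top or
bottom cell of a vertical domino. -/
inductive K : Type
  | X | O | L | R | T | B
deriving DecidableEq

/-- A gunport configuration on the board `[0, m) × [0, n)`, given by the states of the cells. -/
structure Cfg (m n : ℤ) (s : ℤ → ℤ → K) : Prop where
  out : ∀ r c, s r c = K.X ↔ ¬ (0 ≤ r ∧ r < m ∧ 0 ≤ c ∧ c < n)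
  hor : ∀ r c, s r c = K.L ↔ s r (c + 1) = K.R
  ver : ∀ r c, s r c = K.T ↔ s (r + 1) c = K.B
  oo1 : ∀ r c, s r c = K.O → s r (c + 1) ≠ K.O
  oo2 : ∀ r c, s r c = K.O → s (r + 1) c ≠ K.O

/-- Transposition of states. -/
def K.tr : K → K
  | X => X | O => O | L => T | R => B | T => L | B => R

/-- Up-down reflection of states. -/
def K.fl : K → K
  | X => X | O => O | L => L | R => R | T => B | B => T

lemma tr_X (k : K) : k.tr = K.X ↔ k = K.X := by cases k <;> simp [K.tr]
lemma tr_O (k : K) : k.tr = K.O ↔ k = K.O := by cases k <;> simp [K.tr]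
lemma tr_L (k : K) : k.tr = K.L ↔ k = K.T := by cases k <;> simp [K.tr]
lemma tr_R (k : K) : k.tr = K.R ↔ k = K.B := by cases k <;> simp [K.tr]
lemma tr_T (k : K) : k.tr = K.T ↔ k = K.L := by cases k <;> simp [K.tr]
lemma tr_B (k : K) : k.tr = K.B ↔ k = K.R := by cases k <;> simp [K.tr]
lemma fl_X (k : K) : k.fl = K.X ↔ k = K.X := by cases k <;> simp [K.fl]
lemma fl_O (k : K) : k.fl = K.O ↔ k = K.O := by cases k <;> simp [K.fl]
lemma fl_L (k : K) : k.fl = K.L ↔ k = K.L := by cases k <;> simp [K.fl]
lemma fl_R (k : K) : k.fl = K.R ↔ k = K.R := by cases k <;> simp [K.fl]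
lemma fl_T (k : K) : k.fl = K.T ↔ k = K.B := by cases k <;> simp [K.fl]
lemma fl_B (k : K) : k.fl = K.B ↔ k = K.T := by cases k <;> simp [K.fl]

/-- The transposed configuration. -/
def tp (s : ℤ → ℤ → K) : ℤ → ℤ → K := fun r c => (s c r).tr

/-- The configuration reflected upside down. -/
def fp (m : ℤ) (s : ℤ → ℤ → K) : ℤ → ℤ → K := fun r c => (s (m - 1 - r) c).fl

lemma tp_cfg {m n : ℤ} {s : ℤ → ℤ → K} (h : Cfg m n s) : Cfg n m (tp s) where
  out r c := by
    simp only [tp]
    rw [tr_X, h.out]
    tauto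
  hor r c := by
    simp only [tp]
    rw [tr_L, tr_R, h.ver]
  ver r c := by
    simp only [tp]
    rw [tr_T, tr_B, h.hor]
  oo1 r c := by
    simp only [tp]
    rw [tr_O, Ne, tr_O]
    exact h.oo2 c r
  oo2 r c := by
    simp only [tp]
    rw [tr_O, Ne, tr_O]
    exact h.oo1 c r

lemma fp_cfg {m n : ℤ} {s : ℤ → ℤ → K} (h : Cfg m n s) : Cfg m n (fp m s) where
  out r c := by
    simp only [fp]
    rw [fl_X, h.out]
    constructor <;> intro h' h'' <;> apply h' <;> omega
  hor r c := by
    simp only [fp]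
    rw [fl_L, fl_R, h.hor]
  ver r c := by
    simp only [fp]
    rw [fl_T, fl_B, h.ver, show m - 1 - (r + 1) + 1 = m - 1 - r by ring]
  oo1 r c := by
    simp only [fp]
    rw [fl_O, Ne, fl_O]
    exact h.oo1 _ c
  oo2 r c := by
    simp only [fp]
    rw [fl_O, Ne, fl_O]
    intro h1 h2
    have := h.oo2 _ _ h2
    rw [show m - 1 - (r + 1) + 1 = m - 1 - r by ring] at this
    exact this h1

/-! ### Clean rows -/

/-- The horizontal domino with left cell `(r, c)` has a hole at each side inside the board. -/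
def GH (m n : ℤ) (s : ℤ → ℤ → K) (r c : ℤ) : Prop :=
  s r c = K.L → (c = 0 ∨ s r (c - 1) = K.O) ∧ (c + 2 = n ∨ s r (c + 2) = K.O) ∧
    (r = 0 ∨ s (r - 1) c = K.O ∨ s (r - 1) (c + 1) = K.O) ∧
    (r + 1 = m ∨ s (r + 1) c = K.O ∨ s (r + 1) (c + 1) = K.O)

/-- The vertical domino with top cell `(r, c)` has a hole at each side inside the board. -/
def GV (m n : ℤ) (s : ℤ → ℤ → K) (r c : ℤ) : Prop :=
  s r c = K.T → (c = 0 ∨ s r (c - 1) = K.O ∨ s (r + 1) (c - 1) = K.O) ∧
    (c + 1 = n ∨ s r (c + 1) = K.O ∨ s (r + 1) (c + 1) = K.O) ∧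
    (r = 0 ∨ s (r - 1) c = K.O) ∧ (r + 2 = m ∨ s (r + 2) c = K.O)

/-- The row `r` is clean: no vertical domino at the left wall meets it, and all dominoes meeting it
are good. -/
def Clean (m n : ℤ) (s : ℤ → ℤ → K) (r : ℤ) : Prop :=
  s r 0 ≠ K.T ∧ s r 0 ≠ K.B ∧ ∀ c, GH m n s r c ∧ GV m n s r c ∧ GV m n s (r - 1) c

lemma fp_clean {m n : ℤ} {s : ℤ → ℤ → K} (h : Cfg m n s) (r : ℤ) (hr : Clean m n s r) :
    Clean m n (fp m s) (m - 1 - r) := by
  obtain ⟨h1, h2, h3⟩ := hr
  refine ⟨?_, ?_, fun c => ?_⟩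
  · simp only [fp]
    rw [Ne, fl_T, show m - 1 - (m - 1 - r) = r by ring]
    exact h2
  · simp only [fp]
    rw [Ne, fl_B, show m - 1 - (m - 1 - r) = r by ring]
    exact h1
  · obtain ⟨g1, g2, g3⟩ := h3 c
    refine ⟨?_, ?_, ?_⟩
    · intro hL
      simp only [fp] at hL ⊢
      rw [fl_L, show m - 1 - (m - 1 - r) = r by ring] at hL
      obtain ⟨a1, a2, a3, a4⟩ := g1 hL
      rw [fl_O, fl_O, fl_O, fl_O, fl_O, fl_O, show m - 1 - (m - 1 - r) = r by ring,
        show m - 1 - (m - 1 - r - 1) = r + 1 by ring,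
        show m - 1 - (m - 1 - r + 1) = r - 1 by ring]
      refine ⟨a1, a2, ?_, ?_⟩
      · rcases a4 with a4 | a4
        · left; omega
        · right; exact a4
      · rcases a3 with a3 | a3
        · left; omega
        · right; exact a3
    · intro hT
      simp only [fp] at hT ⊢
      rw [fl_T, show m - 1 - (m - 1 - r) = r by ring] at hT
      have hT' : s (r - 1) c = K.T := by
        rw [h.ver, show r - 1 + 1 = r by ring]; exact hT
      obtain ⟨a1, a2, a3, a4⟩ := g3 hT'
      rw [fl_O, fl_O, fl_O, fl_O, fl_O, fl_O, show m - 1 - (m - 1 - r) = r by ring,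
        show m - 1 - (m - 1 - r - 1) = r + 1 by ring,
        show m - 1 - (m - 1 - r + 1) = r - 1 by ring,
        show m - 1 - (m - 1 - r + 2) = r - 2 by ring]
      rw [show r - 1 + 1 = r by ring] at a1 a2
      rw [show r - 1 - 1 = r - 2 by ring] at a3
      rw [show r - 1 + 2 = r + 1 by ring] at a4
      refine ⟨by tauto, by tauto, ?_, ?_⟩
      · rcases a4 with a4 | a4
        · left; omega
        · right; exact a4
      · rcases a3 with a3 | a3
        · left; omega
        · right; exact a3
    · intro hT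
      simp only [fp] at hT ⊢
      rw [fl_T, show m - 1 - (m - 1 - r - 1) = r + 1 by ring] at hT
      have hT' : s r c = K.T := by
        rw [h.ver]; exact hT
      obtain ⟨a1, a2, a3, a4⟩ := g2 hT'
      rw [fl_O, fl_O, fl_O, fl_O, fl_O, fl_O, show m - 1 - (m - 1 - r - 1) = r + 1 by ring,
        show m - 1 - (m - 1 - r - 1 + 1) = r by ring,
        show m - 1 - (m - 1 - r - 1 - 1) = r + 2 by ring,
        show m - 1 - (m - 1 - r - 1 + 2) = r - 1 by ring]
      refine ⟨by tauto, by tauto, ?_, ?_⟩
      · rcases a4 with a4 | a4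
        · left; omega
        · right; exact a4
      · rcases a3 with a3 | a3
        · left; omega
        · right; exact a3

lemma notX {m n : ℤ} {s : ℤ → ℤ → K} (h : Cfg m n s) {r c : ℤ} (h1 : 0 ≤ r) (h2 : r < m)
    (h3 : 0 ≤ c) (h4 : c < n) : s r c ≠ K.X := by
  intro hX
  exact (h.out r c).1 hX ⟨h1, h2, h3, h4⟩

lemma inside {m n : ℤ} {s : ℤ → ℤ → K} (h : Cfg m n s) {r c : ℤ} (hX : s r c ≠ K.X) :
    0 ≤ r ∧ r < m ∧ 0 ≤ c ∧ c < n := by
  by_contra hc
  exact hX ((h.out r c).2 hc)

/-- The descent to the left wall. -/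
lemma descent {m n : ℤ} {s : ℤ → ℤ → K} (h : Cfg m n s) (t c : ℤ) (ht : 0 ≤ t)
    (h0 : Clean m n s t) (h1 : Clean m n s (t + 1))
    (hleft : ∀ c', c' < c → s t c' ≠ K.T ∧ s t c' ≠ K.B) :
    ∀ k : ℕ, ∀ y : ℤ, y = k → y < c → s (t + 1) y = K.O → s t y = K.R →
      s t 0 = K.O ∧ s (t + 1) 0 = K.L ∧
        ∀ c', c' ≤ y → s (t + 1) c' ≠ K.T ∧ s (t + 1) c' ≠ K.B := by
  intro k
  induction k using Nat.strong_induction_on with
  | _ k ih =>
    intro y hy hyc hO hR
    have hin := inside h (r := t + 1) (c := y) (by rw [hO]; decide)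
    have hL : s t (y - 1) = K.L := by
      rw [h.hor, show y - 1 + 1 = y by ring]; exact hR
    have hinL := inside h (r := t) (c := y - 1) (by rw [hL]; decide)
    have g := ((h0.2.2 (y - 1)).1 hL).1
    -- state of `(t+1, y-1)`
    have e1 : s (t + 1) (y - 1) = K.R := by
      have nX : s (t + 1) (y - 1) ≠ K.X := notX h (by omega) (by omega) (by omega) (by omega)
      have nO : s (t + 1) (y - 1) ≠ K.O := by
        intro hc
        have := h.oo1 _ _ hc
        rw [show y - 1 + 1 = y by ring] at this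
        exact this hO
      have nL : s (t + 1) (y - 1) ≠ K.L := by
        intro hc
        rw [h.hor, show y - 1 + 1 = y by ring, hO] at hc
        exact absurd hc (by decide)
      have nB : s (t + 1) (y - 1) ≠ K.B := by
        intro hc
        rw [← h.ver, hL] at hc
        exact absurd hc (by decide)
      have nT : s (t + 1) (y - 1) ≠ K.T := by
        intro hc
        have := ((h1.2.2 (y - 1)).2.1 hc).2.2.1
        rcases this with h' | h'
        · omega
        · rw [show t + 1 - 1 = t by ring, hL] at h'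
          exact absurd h' (by decide)
      cases hk : s (t + 1) (y - 1) <;> simp_all
    have e2 : s (t + 1) (y - 2) = K.L := by
      rw [h.hor, show y - 2 + 1 = y - 1 by ring]; exact e1
    have hin2 := inside h (r := t + 1) (c := y - 2) (by rw [e2]; decide)
    have e3 : s t (y - 2) = K.O := by
      rcases g with h' | h'
      · omega
      · rw [show y - 1 - 1 = y - 2 by ring] at h'
        exact h'
    have g2 := ((h1.2.2 (y - 2)).1 e2).1
    have hrow : ∀ c', y - 2 ≤ c' → c' ≤ y → s (t + 1) c' ≠ K.T ∧ s (t + 1) c' ≠ K.B := by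
      intro c' h1' h2'
      have : c' = y - 2 ∨ c' = y - 1 ∨ c' = y := by omega
      rcases this with rfl | rfl | rfl
      · rw [e2]; decide
      · rw [e1]; decide
      · rw [hO]; decide
    rcases g2 with h' | h'
    · rw [h'] at e2 e3
      refine ⟨e3, e2, fun c' hc' => ?_⟩
      by_cases hc0 : c' < 0
      · have : s (t + 1) c' = K.X := by rw [h.out]; omega
        rw [this]; decide
      · exact hrow c' (by omega) hc'
    · rw [show y - 2 - 1 = y - 3 by ring] at h'
      have hin3 := inside h (r := t + 1) (c := y - 3) (by rw [h']; decide)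
      have e4 : s t (y - 3) = K.R := by
        have nX : s t (y - 3) ≠ K.X := notX h (by omega) (by omega) (by omega) (by omega)
        have nO : s t (y - 3) ≠ K.O := by
          intro hc
          have := h.oo1 _ _ hc
          rw [show y - 3 + 1 = y - 2 by ring] at this
          exact this e3
        have nL : s t (y - 3) ≠ K.L := by
          intro hc
          rw [h.hor, show y - 3 + 1 = y - 2 by ring, e3] at hc
          exact absurd hc (by decide)
        have nTB := hleft (y - 3) (by omega)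
        cases hk : s t (y - 3) <;> simp_all
      obtain ⟨f1, f2, f3⟩ := ih (k - 3) (by omega) (y - 3) (by omega) (by omega) h' e4
      refine ⟨f1, f2, fun c' hc' => ?_⟩
      by_cases hc0 : c' ≤ y - 3
      · exact f3 c' hc0
      · exact hrow c' (by omega) hc'

/-- The leftmost vertical cell in a clean row whose partner is in the next (clean) row. -/
lemma step1 {m n : ℤ} {s : ℤ → ℤ → K} (h : Cfg m n s) (t c : ℤ)
    (h0 : Clean m n s t) (h1 : Clean m n s (t + 1)) (hT : s t c = K.T)
    (hleft : ∀ c', c' < c → s t c' ≠ K.T ∧ s t c' ≠ K.B) :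
    s t 0 = K.O ∧ s (t + 1) 0 = K.L ∧ s (t + 1) (c - 1) = K.T ∧
      ∀ c', c' < c - 1 → s (t + 1) c' ≠ K.T ∧ s (t + 1) c' ≠ K.B := by
  have hB : s (t + 1) c = K.B := (h.ver _ _).1 hT
  have hin := inside h (r := t) (c := c) (by rw [hT]; decide)
  have hinB := inside h (r := t + 1) (c := c) (by rw [hB]; decide)
  have hc0 : c ≠ 0 := by
    intro hc
    rw [hc] at hT
    exact h0.1 hT
  have e1 : s t (c - 1) = K.O := by
    have nX : s t (c - 1) ≠ K.X := notX h (by omega) (by omega) (by omega) (by omega)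
    have nL : s t (c - 1) ≠ K.L := by
      intro hc
      rw [h.hor, show c - 1 + 1 = c by ring, hT] at hc
      exact absurd hc (by decide)
    have nR : s t (c - 1) ≠ K.R := by
      intro hc
      have hc' : s t (c - 2) = K.L := by
        rw [h.hor, show c - 2 + 1 = c - 1 by ring]; exact hc
      have := ((h0.2.2 (c - 2)).1 hc').2.1
      rcases this with h' | h'
      · omega
      · rw [show c - 2 + 2 = c by ring, hT] at h'
        exact absurd h' (by decide)
    have nTB := hleft (c - 1) (by omega)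
    cases hk : s t (c - 1) <;> simp_all
  have e2 : s (t + 1) (c - 1) = K.T := by
    have nX : s (t + 1) (c - 1) ≠ K.X := notX h (by omega) (by omega) (by omega) (by omega)
    have nO : s (t + 1) (c - 1) ≠ K.O := h.oo2 _ _ e1
    have nL : s (t + 1) (c - 1) ≠ K.L := by
      intro hc
      rw [h.hor, show c - 1 + 1 = c by ring, hB] at hc
      exact absurd hc (by decide)
    have nR : s (t + 1) (c - 1) ≠ K.R := by
      intro hc
      have hc' : s (t + 1) (c - 2) = K.L := by
        rw [h.hor, show c - 2 + 1 = c - 1 by ring]; exact hc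
      have := ((h1.2.2 (c - 2)).1 hc').2.1
      rcases this with h' | h'
      · omega
      · rw [show c - 2 + 2 = c by ring, hB] at h'
        exact absurd h' (by decide)
    have nB : s (t + 1) (c - 1) ≠ K.B := by
      intro hc
      rw [← h.ver, e1] at hc
      exact absurd hc (by decide)
    cases hk : s (t + 1) (c - 1) <;> simp_all
  have hc1 : c - 1 ≠ 0 := by
    intro hc
    rw [hc] at e2
    exact h1.1 e2
  have e3 : s t (c - 2) = K.R := by
    have nX : s t (c - 2) ≠ K.X := notX h (by omega) (by omega) (by omega) (by omega)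
    have nO : s t (c - 2) ≠ K.O := by
      intro hc
      have := h.oo1 _ _ hc
      rw [show c - 2 + 1 = c - 1 by ring] at this
      exact this e1
    have nL : s t (c - 2) ≠ K.L := by
      intro hc
      rw [h.hor, show c - 2 + 1 = c - 1 by ring, e1] at hc
      exact absurd hc (by decide)
    have nTB := hleft (c - 2) (by omega)
    cases hk : s t (c - 2) <;> simp_all
  have e4 : s t (c - 3) = K.L := by
    rw [h.hor, show c - 3 + 1 = c - 2 by ring]; exact e3
  have e5 : s (t + 1) (c - 2) = K.O := by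
    have g := ((h0.2.2 (c - 3)).1 e4).2.2.2
    rcases g with g | g | g
    · omega
    · by_contra hcon
      have g' := ((h1.2.2 (c - 1)).2.1 e2).1
      rw [show c - 1 - 1 = c - 2 by ring, show t + 1 + 1 = t + 2 by ring] at g'
      rcases g' with g' | g' | g'
      · omega
      · exact hcon g'
      · have nX : s (t + 1) (c - 2) ≠ K.X := notX h (by omega) (by omega) (by omega) (by omega)
        have nL : s (t + 1) (c - 2) ≠ K.L := by
          intro hc
          rw [h.hor, show c - 2 + 1 = c - 1 by ring, e2] at hc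
          exact absurd hc (by decide)
        have nR : s (t + 1) (c - 2) ≠ K.R := by
          intro hc
          have hc' : s (t + 1) (c - 3) = K.L := by
            rw [h.hor, show c - 3 + 1 = c - 2 by ring]; exact hc
          rw [g] at hc'
          exact absurd hc' (by decide)
        have nT : s (t + 1) (c - 2) ≠ K.T := by
          intro hc
          rw [h.ver, show t + 1 + 1 = t + 2 by ring, g'] at hc
          exact absurd hc (by decide)
        have nB : s (t + 1) (c - 2) ≠ K.B := by
          intro hc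
          rw [← h.ver, e3] at hc
          exact absurd hc (by decide)
        cases hk : s (t + 1) (c - 2) <;> simp_all
    · rw [show c - 3 + 1 = c - 2 by ring] at g
      exact g
  obtain ⟨f1, f2, f3⟩ := descent h t c hin.1 h0 h1 hleft (c - 2).toNat (c - 2) (by omega)
    (by omega) e5 e3
  exact ⟨f1, f2, e2, fun c' hc' => f3 c' (by omega)⟩

/-- In three consecutive clean rows there is no leftmost vertical cell of the first row with partner
in the second. -/
lemma step2 {m n : ℤ} {s : ℤ → ℤ → K} (h : Cfg m n s) (t c : ℤ)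
    (h0 : Clean m n s t) (h1 : Clean m n s (t + 1)) (h2 : Clean m n s (t + 2))
    (hleft : ∀ c', c' < c → s t c' ≠ K.T ∧ s t c' ≠ K.B) : s t c ≠ K.T := by
  intro hT
  obtain ⟨-, f2, f3, f4⟩ := step1 h t c h0 h1 hT hleft
  have h2' : Clean m n s (t + 1 + 1) := by
    rw [show t + 1 + 1 = t + 2 by ring]; exact h2
  obtain ⟨g1, -⟩ := step1 h (t + 1) (c - 1) h1 h2' f3 f4
  rw [f2] at g1
  exact absurd g1 (by decide)

lemma step2' {m n : ℤ} {s : ℤ → ℤ → K} (h : Cfg m n s) (t c : ℤ)
    (h0 : Clean m n s t) (h1 : Clean m n s (t - 1)) (h2 : Clean m n s (t - 2))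
    (hleft : ∀ c', c' < c → s t c' ≠ K.T ∧ s t c' ≠ K.B) : s t c ≠ K.B := by
  have k0 := fp_clean h _ h0
  have k1 := fp_clean h _ h1
  have k2 := fp_clean h _ h2
  rw [show m - 1 - (t - 1) = m - 1 - t + 1 by ring] at k1
  rw [show m - 1 - (t - 2) = m - 1 - t + 2 by ring] at k2
  have := step2 (fp_cfg h) (m - 1 - t) c k0 k1 k2 (by
    intro c' hc'
    simp only [fp]
    rw [Ne, fl_T, Ne, fl_B, show m - 1 - (m - 1 - t) = t by ring]
    exact (hleft c' hc').symm)
  simp only [fp] at this
  rw [Ne, fl_T, show m - 1 - (m - 1 - t) = t by ring] at this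
  exact this

/-- A row in the middle of five clean rows meets no vertical domino. -/
lemma noV {m n : ℤ} {s : ℤ → ℤ → K} (h : Cfg m n s) (t : ℤ)
    (hc : ∀ i : ℤ, t - 2 ≤ i → i ≤ t + 2 → Clean m n s i) (c : ℤ) :
    s t c ≠ K.T ∧ s t c ≠ K.B := by
  by_cases hneg : c < 0
  · have : s t c = K.X := by rw [h.out]; omega
    rw [this]; decide
  · obtain ⟨k, hk⟩ : ∃ k : ℕ, c = k := ⟨c.toNat, by omega⟩
    rw [hk]
    clear hneg hk
    induction k using Nat.strong_induction_on with
    | _ k ih =>
      have hleft : ∀ c' : ℤ, c' < (k : ℤ) → s t c' ≠ K.T ∧ s t c' ≠ K.B := by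
        intro c' hc'
        by_cases hneg : c' < 0
        · have : s t c' = K.X := by rw [h.out]; omega
          rw [this]; decide
        · have := ih c'.toNat (by omega)
          rw [show ((c'.toNat : ℕ) : ℤ) = c' by omega] at this
          exact this
      exact ⟨step2 h t k (hc _ (by omega) (by omega)) (hc _ (by omega) (by omega))
        (hc _ (by omega) (by omega)) hleft,
        step2' h t k (hc _ (by omega) (by omega)) (hc _ (by omega) (by omega))
        (hc _ (by omega) (by omega)) hleft⟩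

/-- A pure row starting with a hole. -/
lemma pureO {m n : ℤ} {s : ℤ → ℤ → K} (h : Cfg m n s) (t : ℤ) (ht : 0 ≤ t) (htm : t < m)
    (h0 : Clean m n s t) (hv : ∀ c, s t c ≠ K.T ∧ s t c ≠ K.B) (a : ℤ) (ha : 0 ≤ a)
    (hO : s t a = K.O) : ∀ k : ℕ, a + 3 * k < n → s t (a + 3 * k) = K.O := by
  intro k
  induction k with
  | zero => intro _; simpa using hO
  | succ k ih =>
    intro hk
    push_cast at hk
    have hk' := ih (by omega)
    have e1 : s t (a + 3 * k + 1) = K.L := by
      have nX : s t (a + 3 * k + 1) ≠ K.X := notX h ht htm (by omega) (by omega)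
      have nO := h.oo1 _ _ hk'
      have nR : s t (a + 3 * k + 1) ≠ K.R := by
        rw [Ne, ← h.hor, hk']; decide
      have nTB := hv (a + 3 * k + 1)
      cases hk : s t (a + 3 * k + 1) <;> simp_all
    have g := ((h0.2.2 _).1 e1).2.1
    rcases g with g | g
    · omega
    · push_cast
      rw [show a + 3 * ((k : ℤ) + 1) = a + 3 * k + 1 + 2 by ring]
      exact g

lemma window {m n : ℤ} {s : ℤ → ℤ → K} (h : Cfg m n s) (t : ℤ) (hn : 3 ≤ n) (hn3 : n % 3 ≠ 0)
    (ht : 0 ≤ t) (htm : t + 1 < m)
    (hc : ∀ i : ℤ, t - 2 ≤ i → i ≤ t + 3 → Clean m n s i) : False := by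
  have v0 := fun c => noV h t (fun i h1 h2 => hc i h1 (by omega)) c
  have v1 := fun c => noV h (t + 1) (fun i h1 h2 => hc i (by omega) (by omega)) c
  have key : ∀ r : ℤ, 0 ≤ r → r < m → Clean m n s r → (∀ c, s r c ≠ K.T ∧ s r c ≠ K.B) →
      (n % 3 = 1 → s r 0 = K.O) ∧ (n % 3 = 2 → s r 2 = K.O) := by
    intro r hr hrm hcl hv
    have nX : s r 0 ≠ K.X := notX h hr hrm (by omega) (by omega)
    have nR : s r 0 ≠ K.R := by
      intro hR
      have : s r (-1) = K.L := by rw [h.hor]; exact hR
      have := inside h (r := r) (c := -1) (by rw [this]; decide)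
      omega
    have hOL : s r 0 = K.O ∨ s r 0 = K.L := by
      have := hv 0
      cases hk : s r 0 <;> simp_all
    constructor
    · intro h1
      rcases hOL with hO | hL
      · exact hO
      · exfalso
        have g := ((hcl.2.2 _).1 hL).2.1
        rcases g with g | g
        · omega
        · rw [show (0 : ℤ) + 2 = 2 by ring] at g
          have hlast := pureO h r hr hrm hcl hv 2 (by omega) g ((n - 4) / 3).toNat (by omega)
          rw [show (2 : ℤ) + 3 * (((n - 4) / 3).toNat : ℤ) = n - 2 by omega] at hlast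
          have nX' : s r (n - 1) ≠ K.X := notX h hr hrm (by omega) (by omega)
          have nO' := h.oo1 _ _ hlast
          rw [show n - 2 + 1 = n - 1 by ring] at nO'
          have nR' : s r (n - 1) ≠ K.R := by
            intro hR
            rw [show n - 1 = n - 2 + 1 by ring, ← h.hor, hlast] at hR
            exact absurd hR (by decide)
          have nL' : s r (n - 1) ≠ K.L := by
            intro hL
            rw [h.hor] at hL
            have := inside h (r := r) (c := n - 1 + 1) (by rw [hL]; decide)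
            omega
          have := hv (n - 1)
          cases hk : s r (n - 1) <;> simp_all
    · intro h2
      rcases hOL with hO | hL
      · exfalso
        have hlast := pureO h r hr hrm hcl hv 0 (by omega) hO ((n - 2) / 3).toNat (by omega)
        rw [show (0 : ℤ) + 3 * (((n - 2) / 3).toNat : ℤ) = n - 2 by omega] at hlast
        have nX' : s r (n - 1) ≠ K.X := notX h hr hrm (by omega) (by omega)
        have nO' := h.oo1 _ _ hlast
        rw [show n - 2 + 1 = n - 1 by ring] at nO'
        have nR' : s r (n - 1) ≠ K.R := by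
          intro hR
          rw [show n - 1 = n - 2 + 1 by ring, ← h.hor, hlast] at hR
          exact absurd hR (by decide)
        have nL' : s r (n - 1) ≠ K.L := by
          intro hL
          rw [h.hor] at hL
          have := inside h (r := r) (c := n - 1 + 1) (by rw [hL]; decide)
          omega
        have := hv (n - 1)
        cases hk : s r (n - 1) <;> simp_all
      · have g := ((hcl.2.2 _).1 hL).2.1
        rcases g with g | g
        · omega
        · exact g
  have k0 := key t ht (by omega) (hc t (by omega) (by omega)) v0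
  have k1 := key (t + 1) (by omega) htm (hc (t + 1) (by omega) (by omega)) v1
  have : n % 3 = 1 ∨ n % 3 = 2 := by omega
  rcases this with h1 | h2
  · exact h.oo2 _ _ (k0.1 h1) (k1.1 h1)
  · exact h.oo2 _ _ (k0.2 h2) (k1.2 h2)

/-! ### Counting -/

/-- The board. -/
noncomputable def bx (m n : ℤ) : Finset (ℤ × ℤ) := Finset.Ico 0 m ×ˢ Finset.Ico 0 n

lemma mem_bx {m n : ℤ} (p : ℤ × ℤ) :
    p ∈ bx m n ↔ (0 ≤ p.1 ∧ p.1 < m) ∧ 0 ≤ p.2 ∧ p.2 < n := by
  simp [bx]

/-- Holes. -/
noncomputable def Hs (m n : ℤ) (s : ℤ → ℤ → K) : Finset (ℤ × ℤ) :=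
  (bx m n).filter fun p => s p.1 p.2 = K.O

/-- Dominoes, given by their left or top cell. -/
noncomputable def Ds (m n : ℤ) (s : ℤ → ℤ → K) : Finset (ℤ × ℤ) :=
  (bx m n).filter fun p => s p.1 p.2 = K.L ∨ s p.1 p.2 = K.T

/-- The domino has a hole on the left. -/
def lh (s : ℤ → ℤ → K) (p : ℤ × ℤ) : Prop :=
  s p.1 (p.2 - 1) = K.O ∨ (s p.1 p.2 = K.T ∧ s (p.1 + 1) (p.2 - 1) = K.O)

/-- The domino has a hole on the right. -/
def rh (s : ℤ → ℤ → K) (p : ℤ × ℤ) : Prop :=
  (s p.1 p.2 = K.L ∧ s p.1 (p.2 + 2) = K.O) ∨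
    (s p.1 p.2 = K.T ∧ (s p.1 (p.2 + 1) = K.O ∨ s (p.1 + 1) (p.2 + 1) = K.O))

/-- The domino touches the right wall. -/
def tr (n : ℤ) (s : ℤ → ℤ → K) (p : ℤ × ℤ) : Prop :=
  (s p.1 p.2 = K.L ∧ p.2 + 2 = n) ∨ (s p.1 p.2 = K.T ∧ p.2 + 1 = n)

instance (s : ℤ → ℤ → K) (p : ℤ × ℤ) : Decidable (lh s p) := by unfold lh; infer_instance
instance (s : ℤ → ℤ → K) (p : ℤ × ℤ) : Decidable (rh s p) := by unfold rh; infer_instance
instance (n : ℤ) (s : ℤ → ℤ → K) (p : ℤ × ℤ) : Decidable (tr n s p) := by
  unfold tr; infer_instance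

/-- Dominoes with no hole on the left. -/
noncomputable def LD (m n : ℤ) (s : ℤ → ℤ → K) : Finset (ℤ × ℤ) :=
  (Ds m n s).filter fun p => ¬ p.2 = 0 ∧ ¬ lh s p

/-- Dominoes with no hole on the right. -/
noncomputable def RD (m n : ℤ) (s : ℤ → ℤ → K) : Finset (ℤ × ℤ) :=
  (Ds m n s).filter fun p => ¬ tr n s p ∧ ¬ rh s p

lemma split3 {α : Type} [DecidableEq α] (S : Finset α) (P Q : α → Prop) [DecidablePred P]
    [DecidablePred Q] :
    (S.filter fun p => ¬ P p ∧ ¬ Q p).card + (S.filter P).card +
      (S.filter fun p => ¬ P p ∧ Q p).card = S.card := by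
  have h1 := Finset.card_filter_add_card_filter_not (s := S) P
  have h2 := Finset.card_filter_add_card_filter_not (s := S.filter fun p => ¬ P p) Q
  rw [Finset.filter_filter, Finset.filter_filter] at h2
  omega

lemma countL {m n : ℤ} {s : ℤ → ℤ → K} (h : Cfg m n s) :
    (LD m n s).card + ((Ds m n s).filter fun p => p.2 = 0).card +
      ((Hs m n s).filter fun p => ¬ p.2 + 1 = n).card ≤ (Ds m n s).card := by
  rw [← split3 (Ds m n s) (fun p => p.2 = 0) (fun p => lh s p)]
  unfold LD
  gcongr 1
  apply Finset.card_le_card_of_injOn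
    (fun p => if s p.1 (p.2 + 1) = K.B then (p.1 - 1, p.2 + 1) else (p.1, p.2 + 1))
  · rintro ⟨r, c⟩ hp
    rw [Finset.mem_coe, Finset.mem_filter] at hp
    obtain ⟨hp, hp'⟩ := hp
    simp only [Hs, Finset.mem_filter, mem_bx] at hp hp'
    obtain ⟨⟨⟨a1, a2⟩, a3, a4⟩, hO⟩ := hp
    have nX : s r (c + 1) ≠ K.X := notX h a1 a2 (by omega) (by omega)
    have nO := h.oo1 _ _ hO
    have nR : s r (c + 1) ≠ K.R := by rw [Ne, ← h.hor, hO]; decide
    rw [Finset.mem_coe, Finset.mem_filter]
    by_cases hB : s r (c + 1) = K.B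
    · have hT : s (r - 1) (c + 1) = K.T := by
        rw [h.ver, show r - 1 + 1 = r by ring]; exact hB
      have hin := inside h (r := r - 1) (c := c + 1) (by rw [hT]; decide)
      simp only [hB, if_true]
      refine ⟨?_, ?_, ?_⟩
      · simp only [Ds, Finset.mem_filter, mem_bx]
        exact ⟨⟨⟨hin.1, hin.2.1⟩, hin.2.2.1, hin.2.2.2⟩, Or.inr hT⟩
      · omega
      · right
        simp only
        rw [show r - 1 + 1 = r by ring, show c + 1 - 1 = c by ring]
        exact ⟨hT, hO⟩
    · simp only [hB, if_false]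
      refine ⟨?_, ?_, ?_⟩
      · simp only [Ds, Finset.mem_filter, mem_bx]
        refine ⟨⟨⟨a1, a2⟩, by omega, by omega⟩, ?_⟩
        cases hk : s r (c + 1) <;> simp_all
      · omega
      · left
        simp only
        rw [show c + 1 - 1 = c by ring]
        exact hO
  · rintro ⟨r, c⟩ hp ⟨r', c'⟩ hq hpq
    rw [Finset.mem_coe, Finset.mem_filter] at hp hq
    simp only [Hs, Finset.mem_filter, mem_bx] at hp hq
    obtain ⟨⟨-, hO⟩, -⟩ := hp
    obtain ⟨⟨-, hO'⟩, -⟩ := hq
    simp only at hpq
    split_ifs at hpq with h1 h2 h2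
    · simp only [Prod.mk.injEq] at hpq ⊢
      omega
    · simp only [Prod.mk.injEq] at hpq
      exfalso
      have e1 : r = r' + 1 := by omega
      have e2 : c = c' := by omega
      subst e1 e2
      exact h.oo2 _ _ hO' hO
    · simp only [Prod.mk.injEq] at hpq
      exfalso
      have e1 : r' = r + 1 := by omega
      have e2 : c = c' := by omega
      subst e1 e2
      exact h.oo2 _ _ hO hO'
    · simp only [Prod.mk.injEq] at hpq ⊢
      omega

lemma countR {m n : ℤ} {s : ℤ → ℤ → K} (h : Cfg m n s) :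
    (RD m n s).card + ((Ds m n s).filter fun p => tr n s p).card +
      ((Hs m n s).filter fun p => ¬ p.2 = 0).card ≤ (Ds m n s).card := by
  rw [← split3 (Ds m n s) (fun p => tr n s p) (fun p => rh s p)]
  unfold RD
  gcongr 1
  apply Finset.card_le_card_of_injOn
    (fun p => if s p.1 (p.2 - 1) = K.R then (p.1, p.2 - 2) else
      if s p.1 (p.2 - 1) = K.T then (p.1, p.2 - 1) else (p.1 - 1, p.2 - 1))
  · rintro ⟨r, c⟩ hp
    rw [Finset.mem_coe, Finset.mem_filter] at hp
    obtain ⟨hp, hp'⟩ := hp
    simp only [Hs, Finset.mem_filter, mem_bx] at hp hp'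
    obtain ⟨⟨⟨a1, a2⟩, a3, a4⟩, hO⟩ := hp
    have nX : s r (c - 1) ≠ K.X := notX h a1 a2 (by omega) (by omega)
    have nO : s r (c - 1) ≠ K.O := by
      intro hc
      have := h.oo1 _ _ hc
      rw [show c - 1 + 1 = c by ring] at this
      exact this hO
    have nL : s r (c - 1) ≠ K.L := by
      rw [Ne, h.hor, show c - 1 + 1 = c by ring, hO]; decide
    rw [Finset.mem_coe, Finset.mem_filter]
    by_cases hR : s r (c - 1) = K.R
    · have hL : s r (c - 2) = K.L := by
        rw [h.hor, show c - 2 + 1 = c - 1 by ring]; exact hR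
      have hin := inside h (r := r) (c := c - 2) (by rw [hL]; decide)
      simp only [hR, if_true]
      refine ⟨?_, ?_, ?_⟩
      · simp only [Ds, Finset.mem_filter, mem_bx]
        exact ⟨⟨⟨hin.1, hin.2.1⟩, hin.2.2.1, hin.2.2.2⟩, Or.inl hL⟩
      · unfold tr
        simp only [hL]
        rintro (⟨-, h'⟩ | ⟨h', -⟩)
        · omega
        · exact absurd h' (by decide)
      · left
        simp only
        rw [show c - 2 + 2 = c by ring]
        exact ⟨hL, hO⟩
    · simp only [hR, if_false]
      by_cases hT : s r (c - 1) = K.T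
      · simp only [hT, if_true]
        refine ⟨?_, ?_, ?_⟩
        · simp only [Ds, Finset.mem_filter, mem_bx]
          exact ⟨⟨⟨a1, a2⟩, by omega, by omega⟩, Or.inr hT⟩
        · unfold tr
          simp only [hT]
          rintro (⟨h', -⟩ | ⟨-, h'⟩)
          · exact absurd h' (by decide)
          · omega
        · right
          simp only
          rw [show c - 1 + 1 = c by ring]
          exact ⟨hT, Or.inl hO⟩
      · have hB : s r (c - 1) = K.B := by
          cases hk : s r (c - 1) <;> simp_all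
        have hT' : s (r - 1) (c - 1) = K.T := by
          rw [h.ver, show r - 1 + 1 = r by ring]; exact hB
        have hin := inside h (r := r - 1) (c := c - 1) (by rw [hT']; decide)
        simp only [hT, if_false]
        refine ⟨?_, ?_, ?_⟩
        · simp only [Ds, Finset.mem_filter, mem_bx]
          exact ⟨⟨⟨hin.1, hin.2.1⟩, hin.2.2.1, hin.2.2.2⟩, Or.inr hT'⟩
        · unfold tr
          simp only [hT']
          rintro (⟨h', -⟩ | ⟨-, h'⟩)
          · exact absurd h' (by decide)
          · omega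
        · right
          simp only
          rw [show c - 1 + 1 = c by ring, show r - 1 + 1 = r by ring]
          exact ⟨hT', Or.inr hO⟩
  · rintro ⟨r, c⟩ hp ⟨r', c'⟩ hq hpq
    rw [Finset.mem_coe, Finset.mem_filter] at hp hq
    simp only [Hs, Finset.mem_filter, mem_bx] at hp hq
    obtain ⟨⟨⟨⟨a1, a2⟩, a3, a4⟩, hO⟩, h0⟩ := hp
    obtain ⟨⟨⟨⟨a1', a2'⟩, a3', a4'⟩, hO'⟩, h0'⟩ := hq
    simp only at hpq
    have hB : ∀ r c, s r c = K.O → c ≠ 0 → 0 ≤ r → r < m → 0 ≤ c → c < n →
        ¬ s r (c - 1) = K.R → ¬ s r (c - 1) = K.T → s (r - 1) (c - 1) = K.T := by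
      intro r c hO h0 a1 a2 a3 a4 hR hT
      have nX : s r (c - 1) ≠ K.X := notX h a1 a2 (by omega) (by omega)
      have nO : s r (c - 1) ≠ K.O := by
        intro hc
        have := h.oo1 _ _ hc
        rw [show c - 1 + 1 = c by ring] at this
        exact this hO
      have nL : s r (c - 1) ≠ K.L := by
        rw [Ne, h.hor, show c - 1 + 1 = c by ring, hO]; decide
      have hB : s r (c - 1) = K.B := by
        cases hk : s r (c - 1) <;> simp_all
      rw [h.ver, show r - 1 + 1 = r by ring]; exact hB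
    have hL : ∀ r c, s r (c - 1) = K.R → s r (c - 2) = K.L := by
      intro r c hR
      rw [h.hor, show c - 2 + 1 = c - 1 by ring]; exact hR
    split_ifs at hpq with h1 h2 h3 h4 h5 h6 h7
    · simp only [Prod.mk.injEq] at hpq ⊢
      omega
    · simp only [Prod.mk.injEq] at hpq
      exfalso
      have := hL _ _ h1
      rw [hpq.1, hpq.2, h3] at this
      exact absurd this (by decide)
    · simp only [Prod.mk.injEq] at hpq
      exfalso
      have := hL _ _ h1
      rw [hpq.1, hpq.2, hB r' c' hO' h0' a1' a2' a3' a4' h2 h3] at this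
      exact absurd this (by decide)
    · simp only [Prod.mk.injEq] at hpq
      exfalso
      have := hL _ _ h5
      rw [← hpq.1, ← hpq.2, h4] at this
      exact absurd this (by decide)
    · simp only [Prod.mk.injEq] at hpq ⊢
      omega
    · simp only [Prod.mk.injEq] at hpq
      exfalso
      have e1 : r' = r + 1 := by omega
      have e2 : c = c' := by omega
      subst e1 e2
      exact h.oo2 _ _ hO hO'
    · simp only [Prod.mk.injEq] at hpq
      exfalso
      have := hL _ _ h7
      rw [← hpq.1, ← hpq.2, hB r c hO h0 a1 a2 a3 a4 h1 h4] at this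
      exact absurd this (by decide)
    · simp only [Prod.mk.injEq] at hpq
      exfalso
      have e1 : r = r' + 1 := by omega
      have e2 : c = c' := by omega
      subst e1 e2
      exact h.oo2 _ _ hO' hO
    · simp only [Prod.mk.injEq] at hpq ⊢
      omega

/-- Holes and dominoes at the left wall. -/
lemma wallL {m n : ℤ} {s : ℤ → ℤ → K} (h : Cfg m n s) :
    ((Hs m n s).filter fun p => p.2 = 0).card ≤
      ((Ds m n s).filter fun p => p.2 = 0).card + 1 := by
  have h1 : ((Hs m n s).filter fun p => p.2 = 0).card ≤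
      (((Hs m n s).filter fun p => p.2 = 0).filter fun p => ¬ p = (m - 1, 0)).card + 1 := by
    have e := Finset.card_filter_add_card_filter_not
      (s := (Hs m n s).filter fun p => p.2 = 0) (fun p => p = (m - 1, 0))
    have : (((Hs m n s).filter fun p => p.2 = 0).filter fun p => p = (m - 1, 0)).card ≤ 1 := by
      rw [Finset.card_le_one]
      intro a ha b hb
      rw [Finset.mem_filter] at ha hb
      rw [ha.2, hb.2]
    omega
  refine h1.trans (Nat.add_le_add_right ?_ 1)
  apply Finset.card_le_card_of_injOn (fun p => (p.1 + 1, p.2))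
  · rintro ⟨r, c⟩ hp
    rw [Finset.mem_coe, Finset.mem_filter, Finset.mem_filter] at hp
    obtain ⟨⟨hp, hc⟩, hp'⟩ := hp
    simp only [Hs, Finset.mem_filter, mem_bx] at hp hp' hc
    obtain ⟨⟨⟨a1, a2⟩, a3, a4⟩, hO⟩ := hp
    subst hc
    have hr : r ≠ m - 1 := fun h => hp' (by rw [h])
    rw [Finset.mem_coe, Finset.mem_filter]
    simp only [Ds, Finset.mem_filter, mem_bx]
    have nX : s (r + 1) 0 ≠ K.X := notX h (by omega) (by omega) (by omega) (by omega)
    have nO := h.oo2 _ _ hO
    have nB : s (r + 1) 0 ≠ K.B := by rw [Ne, ← h.ver, hO]; decide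
    have nR : s (r + 1) 0 ≠ K.R := by
      intro hR
      have hL : s (r + 1) (-1) = K.L := by
        rw [h.hor]; exact hR
      have := inside h (r := r + 1) (c := -1) (by rw [hL]; decide)
      omega
    refine ⟨⟨⟨⟨by omega, by omega⟩, by omega, by omega⟩, ?_⟩, trivial⟩
    cases hk : s (r + 1) 0 <;> simp_all
  · rintro ⟨r, c⟩ - ⟨r', c'⟩ - hpq
    simp only [Prod.mk.injEq] at hpq ⊢
    omega

/-- Holes and dominoes at the right wall. -/
lemma wallR {m n : ℤ} {s : ℤ → ℤ → K} (h : Cfg m n s) :
    ((Hs m n s).filter fun p => p.2 + 1 = n).card ≤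
      ((Ds m n s).filter fun p => tr n s p).card + 1 := by
  have h1 : ((Hs m n s).filter fun p => p.2 + 1 = n).card ≤
      (((Hs m n s).filter fun p => p.2 + 1 = n).filter fun p => ¬ p = (m - 1, n - 1)).card + 1 := by
    have e := Finset.card_filter_add_card_filter_not
      (s := (Hs m n s).filter fun p => p.2 + 1 = n) (fun p => p = (m - 1, n - 1))
    have : (((Hs m n s).filter fun p => p.2 + 1 = n).filter fun p => p = (m - 1, n - 1)).card ≤ 1 := by
      rw [Finset.card_le_one]
      intro a ha b hb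
      rw [Finset.mem_filter] at ha hb
      rw [ha.2, hb.2]
    omega
  refine h1.trans (Nat.add_le_add_right ?_ 1)
  apply Finset.card_le_card_of_injOn
    (fun p => if s (p.1 + 1) p.2 = K.T then (p.1 + 1, p.2) else (p.1 + 1, p.2 - 1))
  · rintro ⟨r, c⟩ hp
    rw [Finset.mem_coe, Finset.mem_filter, Finset.mem_filter] at hp
    obtain ⟨⟨hp, hc⟩, hp'⟩ := hp
    simp only [Hs, Finset.mem_filter, mem_bx] at hp hp' hc
    obtain ⟨⟨⟨a1, a2⟩, a3, a4⟩, hO⟩ := hp
    have hr : r ≠ m - 1 := fun h => hp' (by
      rw [h, Prod.mk.injEq]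
      omega)
    rw [Finset.mem_coe, Finset.mem_filter]
    have nX : s (r + 1) c ≠ K.X := notX h (by omega) (by omega) (by omega) (by omega)
    have nO := h.oo2 _ _ hO
    have nB : s (r + 1) c ≠ K.B := by rw [Ne, ← h.ver, hO]; decide
    have nL : s (r + 1) c ≠ K.L := by
      intro hL
      rw [h.hor] at hL
      have := inside h (r := r + 1) (c := c + 1) (by rw [hL]; decide)
      omega
    by_cases hT : s (r + 1) c = K.T
    · simp only [hT, if_true]
      refine ⟨?_, ?_⟩
      · simp only [Ds, Finset.mem_filter, mem_bx]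
        exact ⟨⟨⟨by omega, by omega⟩, by omega, by omega⟩, Or.inr hT⟩
      · right
        exact ⟨hT, hc⟩
    · have hR : s (r + 1) c = K.R := by
        cases hk : s (r + 1) c <;> simp_all
      have hL : s (r + 1) (c - 1) = K.L := by
        rw [h.hor, show c - 1 + 1 = c by ring]; exact hR
      have hin := inside h (r := r + 1) (c := c - 1) (by rw [hL]; decide)
      simp only [hT, if_false]
      refine ⟨?_, ?_⟩
      · simp only [Ds, Finset.mem_filter, mem_bx]
        exact ⟨⟨⟨hin.1, hin.2.1⟩, hin.2.2.1, hin.2.2.2⟩, Or.inl hL⟩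
      · left
        refine ⟨hL, ?_⟩
        simp only
        omega
  · rintro ⟨r, c⟩ hp ⟨r', c'⟩ hq hpq
    rw [Finset.mem_coe, Finset.mem_filter, Finset.mem_filter] at hp hq
    obtain ⟨⟨-, hc⟩, -⟩ := hp
    obtain ⟨⟨-, hc'⟩, -⟩ := hq
    simp only at hpq hc hc'
    split_ifs at hpq <;> simp only [Prod.mk.injEq] at hpq ⊢ <;> omega

/-- The number of missing holes on left and right sides. -/
lemma defects {m n : ℤ} {s : ℤ → ℤ → K} (h : Cfg m n s) :
    (LD m n s).card + (RD m n s).card + 2 * (Hs m n s).card ≤ 2 * (Ds m n s).card + 2 := by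
  have h1 := countL h
  have h2 := countR h
  have h3 := wallL h
  have h4 := wallR h
  have e1 := Finset.card_filter_add_card_filter_not (s := Hs m n s) (fun p => p.2 + 1 = n)
  have e2 := Finset.card_filter_add_card_filter_not (s := Hs m n s) (fun p => p.2 = 0)
  omega

lemma tp_tp (s : ℤ → ℤ → K) : tp (tp s) = s := by
  funext r c
  simp only [tp]
  cases s r c <;> rfl

lemma card_Hs_tp (m n : ℤ) (s : ℤ → ℤ → K) : (Hs n m (tp s)).card = (Hs m n s).card := by
  apply Finset.card_nbij' Prod.swap Prod.swap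
  · intro p hp
    rw [Finset.mem_coe] at hp ⊢
    simp only [Hs, Finset.mem_filter, mem_bx, tp, tr_O, Prod.fst_swap, Prod.snd_swap] at hp ⊢
    exact ⟨⟨hp.1.2, hp.1.1⟩, hp.2⟩
  · intro p hp
    rw [Finset.mem_coe] at hp ⊢
    simp only [Hs, Finset.mem_filter, mem_bx, tp, tr_O, Prod.fst_swap, Prod.snd_swap] at hp ⊢
    exact ⟨⟨hp.1.2, hp.1.1⟩, hp.2⟩
  · intro p _; exact Prod.swap_swap p
  · intro p _; exact Prod.swap_swap p

lemma card_Ds_tp (m n : ℤ) (s : ℤ → ℤ → K) : (Ds n m (tp s)).card = (Ds m n s).card := by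
  apply Finset.card_nbij' Prod.swap Prod.swap
  · intro p hp
    rw [Finset.mem_coe] at hp ⊢
    simp only [Ds, Finset.mem_filter, mem_bx, tp, tr_L, tr_T, Prod.fst_swap, Prod.snd_swap]
      at hp ⊢
    exact ⟨⟨hp.1.2, hp.1.1⟩, hp.2.symm⟩
  · intro p hp
    rw [Finset.mem_coe] at hp ⊢
    simp only [Ds, Finset.mem_filter, mem_bx, tp, tr_L, tr_T, Prod.fst_swap, Prod.snd_swap]
      at hp ⊢
    exact ⟨⟨hp.1.2, hp.1.1⟩, hp.2.symm⟩
  · intro p _; exact Prod.swap_swap p
  · intro p _; exact Prod.swap_swap p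

/-- The area of the board. -/
lemma area {m n : ℕ} {s : ℤ → ℤ → K} (h : Cfg m n s) :
    (Hs m n s).card + 2 * (Ds m n s).card = m * n := by
  have e0 : (bx m n).card = m * n := by
    simp [bx]
  have e1 := Finset.card_filter_add_card_filter_not (s := bx m n)
    (fun p => s p.1 p.2 = K.O)
  have e2 := Finset.card_filter_add_card_filter_not
    (s := (bx m n).filter fun p => ¬ s p.1 p.2 = K.O)
    (fun p => s p.1 p.2 = K.L ∨ s p.1 p.2 = K.T)
  rw [Finset.filter_filter, Finset.filter_filter] at e2
  have e3 : ((bx m n).filter fun p => ¬ s p.1 p.2 = K.O ∧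
      (s p.1 p.2 = K.L ∨ s p.1 p.2 = K.T)) = Ds m n s := by
    unfold Ds
    apply Finset.filter_congr
    intro p _
    constructor
    · exact fun h => h.2
    · intro h
      refine ⟨?_, h⟩
      rcases h with h | h <;> rw [h] <;> decide
  have e4 : ((bx m n).filter fun p => ¬ s p.1 p.2 = K.O ∧
      ¬ (s p.1 p.2 = K.L ∨ s p.1 p.2 = K.T)).card = (Ds m n s).card := by
    apply Finset.card_nbij'
      (fun p => if s p.1 p.2 = K.R then (p.1, p.2 - 1) else (p.1 - 1, p.2))
      (fun p => if s p.1 p.2 = K.L then (p.1, p.2 + 1) else (p.1 + 1, p.2))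
    · rintro ⟨r, c⟩ hp
      rw [Finset.mem_coe] at hp ⊢
      simp only [Finset.mem_filter, mem_bx] at hp
      obtain ⟨⟨⟨a1, a2⟩, a3, a4⟩, hO, hLT⟩ := hp
      have nX : s r c ≠ K.X := notX h a1 a2 a3 a4
      by_cases hR : s r c = K.R
      · have hL : s r (c - 1) = K.L := by
          rw [h.hor, show c - 1 + 1 = c by ring]; exact hR
        have hin := inside h (r := r) (c := c - 1) (by rw [hL]; decide)
        simp only [hR, if_true, Ds, Finset.mem_filter, mem_bx]
        exact ⟨⟨⟨hin.1, hin.2.1⟩, hin.2.2.1, hin.2.2.2⟩, Or.inl hL⟩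
      · have hB : s r c = K.B := by
          cases hk : s r c <;> simp_all
        have hT : s (r - 1) c = K.T := by
          rw [h.ver, show r - 1 + 1 = r by ring]; exact hB
        have hin := inside h (r := r - 1) (c := c) (by rw [hT]; decide)
        simp only [hR, if_false, Ds, Finset.mem_filter, mem_bx]
        exact ⟨⟨⟨hin.1, hin.2.1⟩, hin.2.2.1, hin.2.2.2⟩, Or.inr hT⟩
    · rintro ⟨r, c⟩ hp
      rw [Finset.mem_coe] at hp ⊢
      simp only [Ds, Finset.mem_filter, mem_bx] at hp
      obtain ⟨⟨⟨a1, a2⟩, a3, a4⟩, hLT⟩ := hp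
      by_cases hL : s r c = K.L
      · have hR : s r (c + 1) = K.R := (h.hor _ _).1 hL
        have hin := inside h (r := r) (c := c + 1) (by rw [hR]; decide)
        simp only [hL, if_true, Finset.mem_filter, mem_bx, hR]
        exact ⟨⟨⟨hin.1, hin.2.1⟩, hin.2.2.1, hin.2.2.2⟩, by decide, by decide⟩
      · have hT : s r c = K.T := by tauto
        have hB : s (r + 1) c = K.B := (h.ver _ _).1 hT
        have hin := inside h (r := r + 1) (c := c) (by rw [hB]; decide)
        simp only [hL, if_false, Finset.mem_filter, mem_bx, hB]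
        exact ⟨⟨⟨hin.1, hin.2.1⟩, hin.2.2.1, hin.2.2.2⟩, by decide, by decide⟩
    · rintro ⟨r, c⟩ hp
      rw [Finset.mem_coe] at hp
      simp only [Finset.mem_filter, mem_bx] at hp
      obtain ⟨⟨⟨a1, a2⟩, a3, a4⟩, hO, hLT⟩ := hp
      have nX : s r c ≠ K.X := notX h a1 a2 a3 a4
      by_cases hR : s r c = K.R
      · have hL : s r (c - 1) = K.L := by
          rw [h.hor, show c - 1 + 1 = c by ring]; exact hR
        simp only [hR, if_true, hL]
        simp
      · have hB : s r c = K.B := by
          cases hk : s r c <;> simp_all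
        have hT : s (r - 1) c = K.T := by
          rw [h.ver, show r - 1 + 1 = r by ring]; exact hB
        simp only [hR, if_false, hT]
        simp
    · rintro ⟨r, c⟩ hp
      rw [Finset.mem_coe] at hp
      simp only [Ds, Finset.mem_filter, mem_bx] at hp
      obtain ⟨-, hLT⟩ := hp
      by_cases hL : s r c = K.L
      · have hR : s r (c + 1) = K.R := (h.hor _ _).1 hL
        simp only [hL, if_true, hR]
        simp
      · have hT : s r c = K.T := by tauto
        have hB : s (r + 1) c = K.B := (h.ver _ _).1 hT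
        simp only [hL, if_false, hB]
        simp
  have e5 : (Hs m n s).card = ((bx m n).filter fun p => s p.1 p.2 = K.O).card := rfl
  rw [e3] at e2
  omega

/-! ### Windows -/

open Classical in
/-- Dominoes missing a hole at some side. -/
noncomputable def Def (m n : ℤ) (s : ℤ → ℤ → K) : Finset (ℤ × ℤ) :=
  (Ds m n s).filter fun p => ¬ (GH m n s p.1 p.2 ∧ GV m n s p.1 p.2)

lemma card_Def {m n : ℤ} {s : ℤ → ℤ → K} :
    (Def m n s).card ≤ (LD m n s).card + (RD m n s).card + (LD n m (tp s)).card +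
      (RD n m (tp s)).card := by
  have hsub : Def m n s ⊆ (LD m n s ∪ RD m n s) ∪
      ((LD n m (tp s)).image Prod.swap ∪ (RD n m (tp s)).image Prod.swap) := by
    rintro ⟨r, c⟩ hp
    simp only [Def, Ds, Finset.mem_filter, mem_bx] at hp
    obtain ⟨⟨⟨⟨a1, a2⟩, a3, a4⟩, hLT⟩, hG⟩ := hp
    simp only [Finset.mem_union, Finset.mem_image]
    have hsw : ∀ Z : Finset (ℤ × ℤ), ((c, r) : ℤ × ℤ) ∈ Z → ∃ a ∈ Z, a.swap = (r, c) :=
      fun Z hZ => ⟨(c, r), hZ, rfl⟩
    rcases hLT with hL | hT
    · have hGV : GV m n s r c := by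
        intro hT
        rw [hL] at hT
        exact absurd hT (by decide)
      have hGH : ¬ GH m n s r c := fun hh => hG ⟨hh, hGV⟩
      unfold GH at hGH
      push Not at hGH
      obtain ⟨-, hGH⟩ := hGH
      by_cases g1 : c = 0 ∨ s r (c - 1) = K.O
      · by_cases g2 : c + 2 = n ∨ s r (c + 2) = K.O
        · by_cases g3 : r = 0 ∨ s (r - 1) c = K.O ∨ s (r - 1) (c + 1) = K.O
          · have g4 := hGH g1 g2 g3
            right; right
            apply hsw
            simp only [RD, Ds, Finset.mem_filter, mem_bx, tr, rh, tp, tr_L, tr_T, tr_O, hL]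
            refine ⟨⟨⟨⟨a3, a4⟩, a1, a2⟩, by simp⟩, ?_, ?_⟩
            · simp; tauto
            · simp; tauto
          · right; left
            apply hsw
            simp only [LD, Ds, Finset.mem_filter, mem_bx, lh, tp, tr_L, tr_T, tr_O, hL]
            refine ⟨⟨⟨⟨a3, a4⟩, a1, a2⟩, by simp⟩, ?_, ?_⟩
            · tauto
            · simp; tauto
        · left; right
          simp only [RD, Ds, Finset.mem_filter, mem_bx, tr, rh, hL]
          refine ⟨⟨⟨⟨a1, a2⟩, a3, a4⟩, by simp⟩, ?_, ?_⟩
          · simp; tauto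
          · simp; tauto
      · left; left
        simp only [LD, Ds, Finset.mem_filter, mem_bx, lh, hL]
        refine ⟨⟨⟨⟨a1, a2⟩, a3, a4⟩, by simp⟩, ?_, ?_⟩
        · tauto
        · simp; tauto
    · have hGH : GH m n s r c := by
        intro hL
        rw [hL] at hT
        exact absurd hT (by decide)
      have hGV : ¬ GV m n s r c := fun hh => hG ⟨hGH, hh⟩
      unfold GV at hGV
      push Not at hGV
      obtain ⟨-, hGV⟩ := hGV
      by_cases g1 : c = 0 ∨ s r (c - 1) = K.O ∨ s (r + 1) (c - 1) = K.O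
      · by_cases g2 : c + 1 = n ∨ s r (c + 1) = K.O ∨ s (r + 1) (c + 1) = K.O
        · by_cases g3 : r = 0 ∨ s (r - 1) c = K.O
          · have g4 := hGV g1 g2 g3
            right; right
            apply hsw
            simp only [RD, Ds, Finset.mem_filter, mem_bx, tr, rh, tp, tr_L, tr_T, tr_O, hT]
            refine ⟨⟨⟨⟨a3, a4⟩, a1, a2⟩, by simp⟩, ?_, ?_⟩
            · simp; tauto
            · simp; tauto
          · right; left
            apply hsw
            simp only [LD, Ds, Finset.mem_filter, mem_bx, lh, tp, tr_L, tr_T, tr_O, hT]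
            refine ⟨⟨⟨⟨a3, a4⟩, a1, a2⟩, by simp⟩, ?_, ?_⟩
            · tauto
            · simp; tauto
        · left; right
          simp only [RD, Ds, Finset.mem_filter, mem_bx, tr, rh, hT]
          refine ⟨⟨⟨⟨a1, a2⟩, a3, a4⟩, by simp⟩, ?_, ?_⟩
          · simp; tauto
          · simp; tauto
      · left; left
        simp only [LD, Ds, Finset.mem_filter, mem_bx, lh, hT]
        refine ⟨⟨⟨⟨a1, a2⟩, a3, a4⟩, by simp⟩, ?_, ?_⟩
        · tauto
        · simp; tauto
  calc (Def m n s).card ≤ _ := Finset.card_le_card hsub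
    _ ≤ (LD m n s ∪ RD m n s).card +
        ((LD n m (tp s)).image Prod.swap ∪ (RD n m (tp s)).image Prod.swap).card :=
      Finset.card_union_le _ _
    _ ≤ ((LD m n s).card + (RD m n s).card) +
        (((LD n m (tp s)).image Prod.swap).card + ((RD n m (tp s)).image Prod.swap).card) :=
      Nat.add_le_add (Finset.card_union_le _ _) (Finset.card_union_le _ _)
    _ ≤ ((LD m n s).card + (RD m n s).card) +
        ((LD n m (tp s)).card + (RD n m (tp s)).card) :=
      Nat.add_le_add_left (Nat.add_le_add Finset.card_image_le Finset.card_image_le) _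
    _ = _ := by ring

/-- Vertical dominoes at the left wall. -/
noncomputable def V0 (m n : ℤ) (s : ℤ → ℤ → K) : Finset (ℤ × ℤ) :=
  (Ds m n s).filter fun p => p.2 = 0 ∧ s p.1 p.2 = K.T

lemma windows {m n : ℕ} {s : ℤ → ℤ → K} (h : Cfg m n s) (hn : 3 ≤ n) (hn3 : n % 3 ≠ 0) :
    m / 6 ≤ 2 * ((V0 m n s).card + (Def m n s).card) := by
  classical
  have key : ∀ k : ℕ, k ∈ Finset.range (m / 6) → ∃ p ∈ V0 m n s ∪ Def m n s,
      p.1 / 6 = k ∨ (p.1 + 1) / 6 = k := by
    intro k hk
    rw [Finset.mem_range] at hk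
    by_contra hcon
    push Not at hcon
    have hV : ∀ r : ℤ, s r 0 = K.T → (r, (0 : ℤ)) ∈ V0 m n s := by
      intro r hr
      have hin := inside h (r := r) (c := 0) (by rw [hr]; decide)
      simp only [V0, Ds, Finset.mem_filter, mem_bx]
      exact ⟨⟨⟨⟨hin.1, hin.2.1⟩, hin.2.2.1, hin.2.2.2⟩, Or.inr hr⟩, trivial, hr⟩
    have hD1 : ∀ r c : ℤ, ¬ GH m n s r c → (r, c) ∈ Def m n s := by
      intro r c hg
      have hL : s r c = K.L := by
        by_contra hL
        exact hg (fun hL' => absurd hL' hL)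
      have hin := inside h (r := r) (c := c) (by rw [hL]; decide)
      simp only [Def, Ds, Finset.mem_filter, mem_bx]
      exact ⟨⟨⟨⟨hin.1, hin.2.1⟩, hin.2.2.1, hin.2.2.2⟩, Or.inl hL⟩, fun hh => hg hh.1⟩
    have hD2 : ∀ r c : ℤ, ¬ GV m n s r c → (r, c) ∈ Def m n s := by
      intro r c hg
      have hT : s r c = K.T := by
        by_contra hT
        exact hg (fun hT' => absurd hT' hT)
      have hin := inside h (r := r) (c := c) (by rw [hT]; decide)
      simp only [Def, Ds, Finset.mem_filter, mem_bx]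
      exact ⟨⟨⟨⟨hin.1, hin.2.1⟩, hin.2.2.1, hin.2.2.2⟩, Or.inr hT⟩, fun hh => hg hh.2⟩
    apply window h (6 * k + 2) (by omega) (by omega) (by omega) (by omega)
    intro i hi1 hi2
    refine ⟨?_, ?_, fun c => ⟨?_, ?_, ?_⟩⟩
    · intro hT
      have := (hcon _ (Finset.mem_union_left _ (hV i hT))).1
      simp only at this
      omega
    · intro hB
      have hT : s (i - 1) 0 = K.T := by
        rw [h.ver, show i - 1 + 1 = i by ring]; exact hB
      have := (hcon _ (Finset.mem_union_left _ (hV _ hT))).2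
      simp only at this
      omega
    · by_contra hg
      have := (hcon _ (Finset.mem_union_right _ (hD1 i c hg))).1
      simp only at this
      omega
    · by_contra hg
      have := (hcon _ (Finset.mem_union_right _ (hD2 i c hg))).1
      simp only at this
      omega
    · by_contra hg
      have := (hcon _ (Finset.mem_union_right _ (hD2 (i - 1) c hg))).2
      simp only at this
      omega
  choose! f hf1 hf2 using key
  have h1 := Finset.card_le_mul_card_image_of_maps_to hf1 2 (by
    intro p _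
    have hsub : (Finset.range (m / 6)).filter (fun k => f k = p) ⊆
        {(p.1 / 6).toNat, ((p.1 + 1) / 6).toNat} := by
      intro k hk
      rw [Finset.mem_filter] at hk
      have := hf2 k hk.1
      rw [hk.2] at this
      rw [Finset.mem_insert, Finset.mem_singleton]
      omega
    exact (Finset.card_le_card hsub).trans Finset.card_le_two)
  rw [Finset.card_range] at h1
  exact h1.trans (Nat.mul_le_mul_left 2 (Finset.card_union_le _ _))

/-! ### Chains of vertical dominoes -/

/-- The vertical domino with top cell `(r, c)` is linked to one in the next column. -/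
def Linked (s : ℤ → ℤ → K) (p : ℤ × ℤ) : Prop :=
  (s p.1 (p.2 + 1) = K.O ∧ s (p.1 + 1) (p.2 + 1) = K.T ∧ s (p.1 + 2) p.2 = K.O) ∨
    (s (p.1 + 1) (p.2 + 1) = K.O ∧ s (p.1 - 1) (p.2 + 1) = K.T ∧ s (p.1 - 1) p.2 = K.O)

instance (s : ℤ → ℤ → K) (p : ℤ × ℤ) : Decidable (Linked s p) := by
  unfold Linked; infer_instance

/-- The next domino of the chain. -/
def nxt (s : ℤ → ℤ → K) (p : ℤ × ℤ) : ℤ × ℤ :=
  if s p.1 (p.2 + 1) = K.O then (p.1 + 1, p.2 + 1) else (p.1 - 1, p.2 + 1)

/-- The dominoes in column `c` reached by chains from the left wall. -/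
noncomputable def S (m n : ℤ) (s : ℤ → ℤ → K) : ℕ → Finset (ℤ × ℤ)
  | 0 => V0 m n s
  | c + 1 => ((S m n s c).filter (Linked s)).image (nxt s)

lemma nxt_T {m n : ℤ} {s : ℤ → ℤ → K} (h : Cfg m n s) (p : ℤ × ℤ) (hl : Linked s p) :
    s (nxt s p).1 (nxt s p).2 = K.T ∧ (nxt s p).2 = p.2 + 1 ∧
      ((nxt s p).1 = p.1 + 1 ∨ (nxt s p).1 = p.1 - 1) := by
  unfold nxt
  rcases hl with ⟨h1, h2, -⟩ | ⟨h1, h2, -⟩
  · rw [if_pos h1]
    exact ⟨h2, rfl, Or.inl rfl⟩
  · have : ¬ s p.1 (p.2 + 1) = K.O := by
      intro hc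
      exact h.oo2 _ _ hc h1
    rw [if_neg this]
    exact ⟨h2, rfl, Or.inr rfl⟩

lemma S_mem {m n : ℤ} {s : ℤ → ℤ → K} (h : Cfg m n s) (c : ℕ) :
    ∀ p ∈ S m n s c, s p.1 p.2 = K.T ∧ p.2 = c := by
  induction c with
  | zero =>
    intro p hp
    simp only [S, V0, Finset.mem_filter] at hp
    exact ⟨hp.2.2, by simpa using hp.2.1⟩
  | succ c ih =>
    intro p hp
    simp only [S, Finset.mem_image, Finset.mem_filter] at hp
    obtain ⟨q, ⟨hq, hl⟩, rfl⟩ := hp
    obtain ⟨a1, a2, -⟩ := nxt_T h q hl
    refine ⟨a1, ?_⟩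
    rw [a2, (ih q hq).2]
    push_cast
    ring

lemma nxt_inj {m n : ℤ} {s : ℤ → ℤ → K} (h : Cfg m n s) (p q : ℤ × ℤ)
    (hp : s p.1 p.2 = K.T) (hq : s q.1 q.2 = K.T) (hlp : Linked s p) (hlq : Linked s q)
    (he : nxt s p = nxt s q) : p = q := by
  obtain ⟨r, c⟩ := p
  obtain ⟨r', c'⟩ := q
  simp only at hp hq
  simp only [Linked] at hlp hlq
  unfold nxt at he
  simp only at he
  have hx : ∀ r c, s r (c + 1) = K.O → ¬ s (r + 1) (c + 1) = K.O := fun r c h1 h2 => h.oo2 _ _ h1 h2
  split_ifs at he with h1 h2 h2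
  · simp only [Prod.mk.injEq] at he ⊢
    omega
  · simp only [Prod.mk.injEq] at he
    exfalso
    have e1 : r' = r + 2 := by omega
    have e2 : c' = c := by omega
    subst e1 e2
    rcases hlp with hlp | hlp
    · rw [hlp.2.2] at hq
      exact absurd hq (by decide)
    · exact hx _ _ h1 hlp.1
  · simp only [Prod.mk.injEq] at he
    exfalso
    have e1 : r = r' + 2 := by omega
    have e2 : c = c' := by omega
    subst e1 e2
    rcases hlq with hlq | hlq
    · rw [hlq.2.2] at hp
      exact absurd hp (by decide)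
    · exact hx _ _ h2 hlq.1
  · simp only [Prod.mk.injEq] at he ⊢
    omega

lemma card_S {m n : ℤ} {s : ℤ → ℤ → K} (h : Cfg m n s) (c : ℕ) :
    (S m n s c).card + ∑ i ∈ Finset.range c, ((S m n s i).filter fun p => ¬ Linked s p).card =
      (V0 m n s).card := by
  induction c with
  | zero => simp [S]
  | succ c ih =>
    rw [Finset.sum_range_succ]
    have h1 := Finset.card_filter_add_card_filter_not (s := S m n s c) (Linked s)
    have h2 : (S m n s (c + 1)).card = ((S m n s c).filter (Linked s)).card := by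
      simp only [S]
      apply Finset.card_image_of_injOn
      intro p hp q hq he
      rw [Finset.mem_coe, Finset.mem_filter] at hp hq
      exact nxt_inj h p q (S_mem h c p hp.1).1 (S_mem h c q hq.1).1 hp.2 hq.2 he
    omega

/-- Vertical dominoes that are not linked and not in the last column. -/
noncomputable def NL (m n : ℤ) (s : ℤ → ℤ → K) : Finset (ℤ × ℤ) :=
  (Ds m n s).filter fun p => s p.1 p.2 = K.T ∧ p.2 + 1 < n ∧ ¬ Linked s p

lemma card_NL {m n : ℤ} {s : ℤ → ℤ → K} (h : Cfg m n s) :
    (NL m n s).card ≤ 3 * ((LD m n s).card + (RD m n s).card) := by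
  classical
  let ψ : ℤ × ℤ → (ℤ × ℤ) ⊕ (ℤ × ℤ) := fun p =>
    if s p.1 (p.2 + 1) = K.O then Sum.inl (p.1 + 1, p.2 + 1)
    else if s (p.1 + 1) (p.2 + 1) = K.O then
      (if s p.1 (p.2 + 1) = K.L then Sum.inl (p.1, p.2 + 1) else Sum.inl (p.1 - 1, p.2 + 1))
    else Sum.inr p
  have h1 : ∀ p ∈ NL m n s, ψ p ∈ (LD m n s).disjSum (RD m n s) := by
    rintro ⟨r, c⟩ hp
    simp only [NL, Ds, Finset.mem_filter, mem_bx] at hp
    obtain ⟨⟨⟨⟨a1, a2⟩, a3, a4⟩, -⟩, hT, hc, hl⟩ := hp
    have hB : s (r + 1) c = K.B := (h.ver _ _).1 hT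
    have hinB := inside h (r := r + 1) (c := c) (by rw [hB]; decide)
    simp only [Linked, not_or] at hl
    obtain ⟨hl1, hl2⟩ := hl
    simp only [ψ]
    by_cases g1 : s r (c + 1) = K.O
    · rw [if_pos g1, Finset.inl_mem_disjSum]
      have nX : s (r + 1) (c + 1) ≠ K.X := notX h (by omega) (by omega) (by omega) (by omega)
      have nO := h.oo2 _ _ g1
      have nR : s (r + 1) (c + 1) ≠ K.R := by rw [Ne, ← h.hor, hB]; decide
      have nB : s (r + 1) (c + 1) ≠ K.B := by rw [Ne, ← h.ver, g1]; decide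
      have hLT : s (r + 1) (c + 1) = K.L ∨ s (r + 1) (c + 1) = K.T := by
        cases hk : s (r + 1) (c + 1) <;> simp_all
      simp only [LD, Ds, Finset.mem_filter, mem_bx, lh]
      refine ⟨⟨⟨⟨by omega, by omega⟩, by omega, by omega⟩, hLT⟩, by omega, ?_⟩
      rw [show c + 1 - 1 = c by ring, show r + 1 + 1 = r + 2 by ring, hB]
      rintro (h' | ⟨h', h''⟩)
      · exact absurd h' (by decide)
      · exact hl1 ⟨g1, h', h''⟩
    · rw [if_neg g1]
      by_cases g2 : s (r + 1) (c + 1) = K.O
      · rw [if_pos g2]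
        have nX : s r (c + 1) ≠ K.X := notX h (by omega) (by omega) (by omega) (by omega)
        have nR : s r (c + 1) ≠ K.R := by rw [Ne, ← h.hor, hT]; decide
        have nT : s r (c + 1) ≠ K.T := by rw [Ne, h.ver, g2]; decide
        by_cases g3 : s r (c + 1) = K.L
        · rw [if_pos g3, Finset.inl_mem_disjSum]
          simp only [LD, Ds, Finset.mem_filter, mem_bx, lh]
          refine ⟨⟨⟨⟨by omega, by omega⟩, by omega, by omega⟩, Or.inl g3⟩, by omega, ?_⟩
          rw [show c + 1 - 1 = c by ring, hT, g3]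
          rintro (h' | ⟨h', h''⟩)
          · exact absurd h' (by decide)
          · exact absurd h' (by decide)
        · rw [if_neg g3, Finset.inl_mem_disjSum]
          have hB' : s r (c + 1) = K.B := by
            cases hk : s r (c + 1) <;> simp_all
          have hT' : s (r - 1) (c + 1) = K.T := by
            rw [h.ver, show r - 1 + 1 = r by ring]; exact hB'
          have hin := inside h (r := r - 1) (c := c + 1) (by rw [hT']; decide)
          simp only [LD, Ds, Finset.mem_filter, mem_bx, lh]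
          refine ⟨⟨⟨⟨by omega, by omega⟩, by omega, by omega⟩, Or.inr hT'⟩, by omega, ?_⟩
          rw [show c + 1 - 1 = c by ring, show r - 1 + 1 = r by ring, hT]
          rintro (h' | ⟨-, h''⟩)
          · exact hl2 ⟨g2, hT', h'⟩
          · exact absurd h'' (by decide)
      · rw [if_neg g2, Finset.inr_mem_disjSum]
        simp only [RD, Ds, Finset.mem_filter, mem_bx, rh, tr]
        refine ⟨⟨⟨⟨by omega, by omega⟩, by omega, by omega⟩, Or.inr hT⟩, ?_, ?_⟩
        · rw [hT]
          rintro (⟨h', -⟩ | ⟨-, h'⟩)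
          · exact absurd h' (by decide)
          · omega
        · rw [hT]
          rintro (⟨h', -⟩ | ⟨-, h' | h'⟩)
          · exact absurd h' (by decide)
          · exact g1 h'
          · exact g2 h'
  have h2 := Finset.card_le_mul_card_image_of_maps_to h1 3 (by
    intro b _
    rcases b with ⟨a, b⟩ | ⟨a, b⟩
    · have hsub : (NL m n s).filter (fun p => ψ p = Sum.inl (a, b)) ⊆
          {(a - 1, b - 1), (a, b - 1), (a + 1, b - 1)} := by
        rintro ⟨r, c⟩ hp
        rw [Finset.mem_filter] at hp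
        have hp' := hp.2
        simp only [ψ] at hp'
        simp only [Finset.mem_insert, Finset.mem_singleton, Prod.mk.injEq]
        split_ifs at hp' <;> simp only [Sum.inl.injEq, Prod.mk.injEq] at hp' <;> omega
      exact (Finset.card_le_card hsub).trans Finset.card_le_three
    · have hsub : (NL m n s).filter (fun p => ψ p = Sum.inr (a, b)) ⊆ {(a, b)} := by
        rintro ⟨r, c⟩ hp
        rw [Finset.mem_filter] at hp
        have hp' := hp.2
        simp only [ψ] at hp'
        simp only [Finset.mem_singleton]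
        split_ifs at hp'
        exact Sum.inr.inj hp'
      exact (Finset.card_le_card hsub).trans (by simp))
  rw [Finset.card_disjSum] at h2
  exact h2

lemma sum_le {m : ℤ} {n : ℕ} {s : ℤ → ℤ → K} (h : Cfg m n s) (c : ℕ) (hc : c + 1 ≤ n) :
    ∑ i ∈ Finset.range c, ((S m n s i).filter fun p => ¬ Linked s p).card ≤ (NL m n s).card := by
  classical
  have hsub : (Finset.range c).biUnion (fun i => (S m n s i).filter fun p => ¬ Linked s p) ⊆
      NL m n s := by
    intro p hp
    rw [Finset.mem_biUnion] at hp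
    obtain ⟨i, hi, hp⟩ := hp
    rw [Finset.mem_filter] at hp
    rw [Finset.mem_range] at hi
    obtain ⟨a1, a2⟩ := S_mem h i p hp.1
    have hin := inside h (r := p.1) (c := p.2) (by rw [a1]; decide)
    simp only [NL, Ds, Finset.mem_filter, mem_bx]
    exact ⟨⟨⟨⟨hin.1, hin.2.1⟩, hin.2.2.1, hin.2.2.2⟩, Or.inr a1⟩, a1, by omega, hp.2⟩
  have hdisj : (Set.PairwiseDisjoint (↑(Finset.range c))
      (fun i => (S m n s i).filter fun p => ¬ Linked s p)) := by
    intro i _ j _ hij
    simp only [Function.onFun]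
    rw [Finset.disjoint_left]
    intro p hp hp'
    rw [Finset.mem_filter] at hp hp'
    have e1 := (S_mem h i p hp.1).2
    have e2 := (S_mem h j p hp'.1).2
    apply hij
    omega
  rw [← Finset.card_biUnion (by
    intro i hi j hj hij
    exact hdisj (by simpa using hi) (by simpa using hj) hij)]
  exact Finset.card_le_card hsub

/-- A path of vertical dominoes. -/
lemma path {m n : ℤ} {s : ℤ → ℤ → K} (h : Cfg m n s) (c : ℕ) :
    ∀ p ∈ S m n s c, ∃ f : ℕ → ℤ, f c = p.1 ∧ (∀ i : ℕ, i ≤ c → s (f i) i = K.T) ∧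
      ∀ i : ℕ, i < c → f (i + 1) = f i + 1 ∨ f (i + 1) = f i - 1 := by
  induction c with
  | zero =>
    intro p hp
    obtain ⟨a1, a2⟩ := S_mem h 0 p hp
    refine ⟨fun _ => p.1, rfl, ?_, ?_⟩
    · intro i hi
      have : i = 0 := by omega
      subst this
      rw [a2] at a1
      exact a1
    · intro i hi
      omega
  | succ c ih =>
    intro p hp
    obtain ⟨b1, b2⟩ := S_mem h (c + 1) p hp
    simp only [S, Finset.mem_image, Finset.mem_filter] at hp
    obtain ⟨q, ⟨hq, hl⟩, hqp⟩ := hp
    obtain ⟨a1, a2, a3⟩ := nxt_T h q hl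
    obtain ⟨f, f1, f2, f3⟩ := ih q hq
    rw [hqp] at a1 a2 a3
    refine ⟨fun i => if i ≤ c then f i else p.1, ?_, ?_, ?_⟩
    · simp
    · intro i hi
      by_cases hic : i ≤ c
      · simp only [hic, if_true]
        exact f2 i hic
      · have : i = c + 1 := by omega
        subst this
        simp only [hic, if_false]
        rw [b2] at b1
        exact b1
    · intro i hi
      by_cases hic : i < c
      · have h1 : i ≤ c := by omega
        have h2 : i + 1 ≤ c := by omega
        simp only [h1, h2, if_true]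
        exact f3 i hic
      · have : i = c := by omega
        subst this
        simp only [le_refl, if_true]
        have h2 : ¬ i + 1 ≤ i := by omega
        simp only [h2, if_false]
        rw [f1]
        exact a3

/-- Many vertical dominoes at the left wall force a path to the right wall. -/
lemma fullPath {m : ℤ} {n : ℕ} {s : ℤ → ℤ → K} (h : Cfg m n s) (hn : 1 ≤ n)
    (hv : 3 * ((LD m n s).card + (RD m n s).card) < (V0 m n s).card) :
    ∃ f : ℕ → ℤ, (∀ i : ℕ, i < n → s (f i) i = K.T) ∧
      ∀ i : ℕ, i + 1 < n → f (i + 1) = f i + 1 ∨ f (i + 1) = f i - 1 := by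
  have h1 := card_S h (n - 1)
  have h2 := sum_le h (n - 1) (by omega)
  have h3 := card_NL h
  have h4 : 0 < (S m n s (n - 1)).card := by omega
  rw [Finset.card_pos] at h4
  obtain ⟨p, hp⟩ := h4
  obtain ⟨f, -, f2, f3⟩ := path h (n - 1) p hp
  exact ⟨f, fun i hi => f2 i (by omega), fun i hi => f3 i (by omega)⟩

/-- Paths of vertical and of horizontal dominoes cannot both exist. -/
lemma crossing {m n : ℕ} {s : ℤ → ℤ → K} (h : Cfg m n s) (hn : 1 ≤ n) (f g : ℕ → ℤ)
    (f1 : ∀ i : ℕ, i < n → s (f i) i = K.T)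
    (f2 : ∀ i : ℕ, i + 1 < n → f (i + 1) = f i + 1 ∨ f (i + 1) = f i - 1)
    (g1 : ∀ j : ℕ, j < m → s j (g j) = K.L)
    (g2 : ∀ j : ℕ, j + 1 < m → g (j + 1) = g j + 1 ∨ g (j + 1) = g j - 1) : False := by
  have hf : ∀ i : ℕ, i < n → 0 ≤ f i ∧ f i + 1 < m := by
    intro i hi
    have a1 := f1 i hi
    have b1 := (h.ver _ _).1 a1
    have a2 := inside h (r := f i) (c := i) (by rw [a1]; decide)
    have b2 := inside h (r := f i + 1) (c := i) (by rw [b1]; decide)
    omega
  have hg : ∀ j : ℕ, j < m → 0 ≤ g j ∧ g j + 1 < n := by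
    intro j hj
    have a1 := g1 j hj
    have b1 := (h.hor _ _).1 a1
    have a2 := inside h (r := j) (c := g j) (by rw [a1]; decide)
    have b2 := inside h (r := j) (c := g j + 1) (by rw [b1]; decide)
    omega
  -- induction: the horizontal path stays to the right
  have key : ∀ i : ℕ, i < n → (i : ℤ) < g (f i).toNat := by
    intro i
    induction i with
    | zero =>
      intro hi
      have hfi := hf 0 hi
      have hgj := hg (f 0).toNat (by omega)
      have a1 := f1 0 hi
      have a2 := g1 (f 0).toNat (by omega)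
      rw [show (((f 0).toNat : ℕ) : ℤ) = f 0 by omega] at a2
      by_contra hc
      have : g (f 0).toNat = (0 : ℕ) := by push_cast at hc ⊢; omega
      rw [this, a1] at a2
      exact absurd a2 (by decide)
    | succ i ih =>
      intro hi
      have ihi := ih (by omega)
      have hfi := hf i (by omega)
      have hfi' := hf (i + 1) hi
      have hd := f2 i hi
      have a1 := f1 (i + 1) hi
      have a2 := g1 (f (i + 1)).toNat (by omega)
      have a3 := (h.hor _ _).1 a2
      rw [show (((f (i + 1)).toNat : ℕ) : ℤ) = f (i + 1) by omega] at a2 a3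
      have hstep : g (f (i + 1)).toNat = g (f i).toNat + 1 ∨
          g (f (i + 1)).toNat = g (f i).toNat - 1 := by
        rcases hd with hd | hd
        · have e : (f (i + 1)).toNat = (f i).toNat + 1 := by omega
          rw [e]
          exact g2 _ (by omega)
        · have e : (f i).toNat = (f (i + 1)).toNat + 1 := by omega
          rw [e]
          have := g2 (f (i + 1)).toNat (by omega)
          omega
      have n1 : g (f (i + 1)).toNat ≠ ((i + 1 : ℕ) : ℤ) := by
        intro hc
        rw [hc, a1] at a2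
        exact absurd a2 (by decide)
      have n2 : g (f (i + 1)).toNat + 1 ≠ ((i + 1 : ℕ) : ℤ) := by
        intro hc
        rw [hc, a1] at a3
        exact absurd a3 (by decide)
      push_cast at n1 n2 ⊢
      omega
  have h1 := key (n - 1) (by omega)
  have h2 := hf (n - 1) (by omega)
  have h3 := hg (f (n - 1)).toNat (by omega)
  omega

/-- The main inequality, for configurations given by states. -/
theorem main {m n : ℕ} {s : ℤ → ℤ → K} (h : Cfg m n s) (hm3 : m % 3 ≠ 0) (hn3 : n % 3 ≠ 0) :
    min m n / 6 + 20 * (Hs m n s).card ≤ 20 * (Ds m n s).card + 20 := by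
  by_contra hcon
  push Not at hcon
  have hd := defects h
  have ht := tp_cfg h
  have hd' := defects ht
  rw [card_Hs_tp, card_Ds_tp] at hd'
  have hge : 1 ≤ min m n / 6 := by omega
  have hm : 6 ≤ m := by
    have := Nat.min_le_left m n
    omega
  have hn : 6 ≤ n := by
    have := Nat.min_le_right m n
    omega
  have w1 := windows h (by omega) hn3
  have w2 := windows ht (by omega) hm3
  have d1 := card_Def (m := m) (n := n) (s := s)
  have d2 := card_Def (m := n) (n := m) (s := tp s)
  rw [tp_tp] at d2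
  have hm6 : min m n / 6 ≤ m / 6 := Nat.div_le_div_right (Nat.min_le_left m n)
  have hn6 : min m n / 6 ≤ n / 6 := Nat.div_le_div_right (Nat.min_le_right m n)
  have hv : 3 * ((LD m n s).card + (RD m n s).card) < (V0 m n s).card := by omega
  have hv' : 3 * ((LD n m (tp s)).card + (RD n m (tp s)).card) < (V0 n m (tp s)).card := by omega
  obtain ⟨f, f1, f2⟩ := fullPath h (by omega) hv
  obtain ⟨g, g1, g2⟩ := fullPath ht (by omega) hv'
  refine crossing h (by omega) f g f1 f2 ?_ g2
  intro j hj
  have := g1 j hj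
  simp only [tp] at this
  rw [tr_T] at this
  exact this

/-! ### Gunport configurations -/

/-- Two unit cells share an edge. -/
def EdgeAdj (p q : ℤ × ℤ) : Prop := |p.1 - q.1| + |p.2 - q.2| = 1

/-- The holes of a set of dominoes: the uncovered cells of the board. -/
noncomputable def holes (m n : ℕ) (T : Finset (Finset (ℤ × ℤ))) : Finset (ℤ × ℤ) :=
  bx m n \ T.biUnion id

/-- Gunport configurations on the `m × n` board: a set of pairwise non-overlapping dominoes, each
covering two cells of the board, such that no two holes share an edge. -/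
structure IsGunport (m n : ℕ) (T : Finset (Finset (ℤ × ℤ))) : Prop where
  domino : ∀ t ∈ T, t ⊆ bx m n ∧ ∃ p q, EdgeAdj p q ∧ t = {p, q}
  disjoint : (T : Set (Finset (ℤ × ℤ))).PairwiseDisjoint id
  isolated : ∀ p ∈ holes m n T, ∀ q ∈ holes m n T, ¬ EdgeAdj p q

/-- The maximum number of holes of a gunport configuration. -/
noncomputable def G (m n : ℕ) : ℕ :=
  sSup {k | ∃ T, IsGunport m n T ∧ (holes m n T).card = k}

/-- Horizontal and vertical dominoes. -/
def hd (r c : ℤ) : Finset (ℤ × ℤ) := {(r, c), (r, c + 1)}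
def vd (r c : ℤ) : Finset (ℤ × ℤ) := {(r, c), (r + 1, c)}

lemma mem_hd (r c : ℤ) (p : ℤ × ℤ) : p ∈ hd r c ↔ p.1 = r ∧ (p.2 = c ∨ p.2 = c + 1) := by
  obtain ⟨a, b⟩ := p
  simp only [hd, Finset.mem_insert, Finset.mem_singleton, Prod.mk.injEq]
  tauto

lemma mem_vd (r c : ℤ) (p : ℤ × ℤ) : p ∈ vd r c ↔ p.2 = c ∧ (p.1 = r ∨ p.1 = r + 1) := by
  obtain ⟨a, b⟩ := p
  simp only [vd, Finset.mem_insert, Finset.mem_singleton, Prod.mk.injEq]
  tauto

section FromT

variable {m n : ℕ} {T : Finset (Finset (ℤ × ℤ))}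

lemma four (hT : IsGunport m n T) (t : Finset (ℤ × ℤ)) (ht : t ∈ T) (r c : ℤ)
    (hrc : (r, c) ∈ t) : t = hd r c ∨ t = hd r (c - 1) ∨ t = vd r c ∨ t = vd (r - 1) c := by
  obtain ⟨-, ⟨a, b⟩, ⟨a', b'⟩, hadj, rfl⟩ := hT.domino t ht
  unfold EdgeAdj at hadj
  simp only at hadj
  have hcases : (a' = a ∧ b' = b + 1) ∨ (a' = a ∧ b' = b - 1) ∨ (a' = a + 1 ∧ b' = b) ∨
      (a' = a - 1 ∧ b' = b) := by
    rcases abs_cases (a - a') with ⟨h1, _⟩ | ⟨h1, _⟩ <;>
    rcases abs_cases (b - b') with ⟨h2, _⟩ | ⟨h2, _⟩ <;> omega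
  have hext : ∀ u : Finset (ℤ × ℤ), (∀ x y : ℤ, ((x = a ∧ y = b) ∨ (x = a' ∧ y = b')) ↔ (x, y) ∈ u) →
      ({(a, b), (a', b')} : Finset (ℤ × ℤ)) = u := by
    intro u hu
    ext ⟨x, y⟩
    rw [← hu x y]
    simp only [Finset.mem_insert, Finset.mem_singleton, Prod.mk.injEq]
  simp only [Finset.mem_insert, Finset.mem_singleton, Prod.mk.injEq] at hrc
  rcases hcases with h | h | h | h <;> rcases hrc with h' | h'
  · left; apply hext; intro x y; rw [mem_hd]; simp only; omega
  · right; left; apply hext; intro x y; rw [mem_hd]; simp only; omega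
  · right; left; apply hext; intro x y; rw [mem_hd]; simp only; omega
  · left; apply hext; intro x y; rw [mem_hd]; simp only; omega
  · right; right; left; apply hext; intro x y; rw [mem_vd]; simp only; omega
  · right; right; right; apply hext; intro x y; rw [mem_vd]; simp only; omega
  · right; right; right; apply hext; intro x y; rw [mem_vd]; simp only; omega
  · right; right; left; apply hext; intro x y; rw [mem_vd]; simp only; omega

lemma uniq (hT : IsGunport m n T) {t u : Finset (ℤ × ℤ)} (ht : t ∈ T) (hu : u ∈ T)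
    {p : ℤ × ℤ} (hp : p ∈ t) (hp' : p ∈ u) : t = u := by
  by_contra hne
  have := hT.disjoint ht hu hne
  simp only [Function.onFun, id] at this
  exact (Finset.disjoint_left.1 this) hp hp'

open Classical in
/-- The states of the cells. -/
noncomputable def st (m n : ℕ) (T : Finset (Finset (ℤ × ℤ))) (r c : ℤ) : K :=
  if (r, c) ∉ bx m n then K.X
  else if (r, c) ∈ holes m n T then K.O
  else if hd r c ∈ T then K.L
  else if hd r (c - 1) ∈ T then K.R
  else if vd r c ∈ T then K.T
  else K.B

lemma covered (hT : IsGunport m n T) {t : Finset (ℤ × ℤ)} (ht : t ∈ T) {p : ℤ × ℤ}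
    (hp : p ∈ t) : p ∈ bx m n ∧ p ∉ holes m n T := by
  refine ⟨(hT.domino t ht).1 hp, ?_⟩
  unfold holes
  rw [Finset.mem_sdiff]
  rintro ⟨-, h⟩
  exact h (Finset.mem_biUnion.2 ⟨t, ht, hp⟩)

lemma st_X (r c : ℤ) : st m n T r c = K.X ↔ (r, c) ∉ bx m n := by
  unfold st
  split_ifs <;> simp_all

lemma st_O (r c : ℤ) : st m n T r c = K.O ↔ (r, c) ∈ holes m n T := by
  by_cases h1 : (r, c) ∈ bx m n
  · by_cases h2 : (r, c) ∈ holes m n T
    · unfold st
      rw [if_neg (by simpa using h1), if_pos h2]
      simp [h2]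
    · unfold st
      rw [if_neg (by simpa using h1), if_neg h2]
      constructor
      · intro h
        split_ifs at h
      · intro h
        exact absurd h h2
  · constructor
    · intro h
      unfold st at h
      rw [if_pos h1] at h
      exact absurd h (by decide)
    · intro h
      exact absurd (Finset.mem_sdiff.1 h).1 h1

lemma st_L (hT : IsGunport m n T) (r c : ℤ) : st m n T r c = K.L ↔ hd r c ∈ T := by
  constructor
  · intro h
    unfold st at h
    split_ifs at h with h1 h2 h3
    exact h3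
  · intro h
    obtain ⟨h1, h2⟩ := covered hT h (p := (r, c)) (by rw [mem_hd]; simp)
    unfold st
    rw [if_neg (by simpa using h1), if_neg h2, if_pos h]

lemma st_R (hT : IsGunport m n T) (r c : ℤ) : st m n T r (c + 1) = K.R ↔ hd r c ∈ T := by
  constructor
  · intro h
    unfold st at h
    split_ifs at h with h1 h2 h3 h4
    rw [show c + 1 - 1 = c by ring] at h4
    exact h4
  · intro h
    obtain ⟨h1, h2⟩ := covered hT h (p := (r, c + 1)) (by rw [mem_hd]; simp)
    have h3 : hd r (c + 1) ∉ T := by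
      intro h3
      have := uniq hT h h3 (p := (r, c + 1)) (by rw [mem_hd]; simp) (by rw [mem_hd]; simp)
      have h4 : (r, c) ∈ hd r (c + 1) := by rw [← this, mem_hd]; simp
      rw [mem_hd] at h4
      simp only at h4
      omega
    unfold st
    rw [if_neg (by simpa using h1), if_neg h2, if_neg h3, show c + 1 - 1 = c by ring, if_pos h]

lemma st_T (hT : IsGunport m n T) (r c : ℤ) : st m n T r c = K.T ↔ vd r c ∈ T := by
  constructor
  · intro h
    unfold st at h
    split_ifs at h with h1 h2 h3 h4 h5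
    exact h5
  · intro h
    obtain ⟨h1, h2⟩ := covered hT h (p := (r, c)) (by rw [mem_vd]; simp)
    have h3 : hd r c ∉ T := by
      intro h3
      have := uniq hT h h3 (p := (r, c)) (by rw [mem_vd]; simp) (by rw [mem_hd]; simp)
      have h4 : (r + 1, c) ∈ hd r c := by rw [← this, mem_vd]; simp
      rw [mem_hd] at h4
      simp only at h4
      omega
    have h3' : hd r (c - 1) ∉ T := by
      intro h3
      have := uniq hT h h3 (p := (r, c)) (by rw [mem_vd]; simp) (by rw [mem_hd]; simp)
      have h4 : (r + 1, c) ∈ hd r (c - 1) := by rw [← this, mem_vd]; simp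
      rw [mem_hd] at h4
      simp only at h4
      omega
    unfold st
    rw [if_neg (by simpa using h1), if_neg h2, if_neg h3, if_neg h3', if_pos h]

lemma st_B (hT : IsGunport m n T) (r c : ℤ) : st m n T (r + 1) c = K.B ↔ vd r c ∈ T := by
  constructor
  · intro h
    unfold st at h
    split_ifs at h with h1 h2 h3 h4 h5
    have hcov : (r + 1, c) ∈ T.biUnion id := by
      by_contra hc
      exact h2 (Finset.mem_sdiff.2 ⟨h1, hc⟩)
    obtain ⟨t, ht, hp⟩ := Finset.mem_biUnion.1 hcov
    rcases four hT t ht (r + 1) c hp with h | h | h | h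
    · rw [h] at ht; exact absurd ht h3
    · rw [h] at ht; exact absurd ht h4
    · rw [h] at ht; exact absurd ht h5
    · rw [h, show r + 1 - 1 = r by ring] at ht; exact ht
  · intro h
    obtain ⟨h1, h2⟩ := covered hT h (p := (r + 1, c)) (by rw [mem_vd]; simp)
    have h3 : hd (r + 1) c ∉ T := by
      intro h3
      have := uniq hT h h3 (p := (r + 1, c)) (by rw [mem_vd]; simp) (by rw [mem_hd]; simp)
      have h4 : (r, c) ∈ hd (r + 1) c := by rw [← this, mem_vd]; simp
      rw [mem_hd] at h4
      simp only at h4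
      omega
    have h3' : hd (r + 1) (c - 1) ∉ T := by
      intro h3
      have := uniq hT h h3 (p := (r + 1, c)) (by rw [mem_vd]; simp) (by rw [mem_hd]; simp)
      have h4 : (r, c) ∈ hd (r + 1) (c - 1) := by rw [← this, mem_vd]; simp
      rw [mem_hd] at h4
      simp only at h4
      omega
    have h5 : vd (r + 1) c ∉ T := by
      intro h3
      have := uniq hT h h3 (p := (r + 1, c)) (by rw [mem_vd]; simp) (by rw [mem_vd]; simp)
      have h4 : (r, c) ∈ vd (r + 1) c := by rw [← this, mem_vd]; simp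
      rw [mem_vd] at h4
      simp only at h4
      omega
    unfold st
    rw [if_neg (by simpa using h1), if_neg h2, if_neg h3, if_neg h3', if_neg h5]

lemma st_cfg (hT : IsGunport m n T) : Cfg m n (st m n T) where
  out r c := by
    rw [st_X, mem_bx]
    simp only
    tauto
  hor r c := by rw [st_L hT, st_R hT]
  ver r c := by rw [st_T hT, st_B hT]
  oo1 r c := by
    rw [st_O, Ne, st_O]
    intro h1 h2
    apply hT.isolated _ h1 _ h2
    simp [EdgeAdj]
  oo2 r c := by
    rw [st_O, Ne, st_O]
    intro h1 h2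
    apply hT.isolated _ h1 _ h2
    simp [EdgeAdj]

lemma st_holes : Hs m n (st m n T) = holes m n T := by
  ext ⟨r, c⟩
  simp only [Hs, Finset.mem_filter, st_O]
  constructor
  · exact fun h => h.2
  · exact fun h => ⟨(Finset.mem_sdiff.1 h).1, h⟩

end FromT

lemma bound (m n : ℕ) (hm : ¬ 3 ∣ m) (hn : ¬ 3 ∣ n) (T : Finset (Finset (ℤ × ℤ)))
    (hT : IsGunport m n T) : 30 * (holes m n T).card + min m n / 6 ≤ 10 * (m * n) + 20 := by
  have h1 := main (st_cfg hT) (by omega) (by omega)
  have h2 := area (st_cfg hT)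
  rw [st_holes] at h1 h2
  omega

lemma boundG (m n : ℕ) (hm : ¬ 3 ∣ m) (hn : ¬ 3 ∣ n) :
    30 * G m n + min m n / 6 ≤ 10 * (m * n) + 20 := by
  unfold G
  rcases Set.eq_empty_or_nonempty {k | ∃ T, IsGunport m n T ∧ (holes m n T).card = k} with h | h
  · rw [h, csSup_empty]
    have h1 : min m n / 6 ≤ m * n := by
      have h2 : min m n ≤ m := Nat.min_le_left m n
      have h3 : m ≤ m * n := Nat.le_mul_of_pos_right m (by omega)
      omega
    simp only [Nat.bot_eq_zero]
    omega
  · have hb : BddAbove {k | ∃ T, IsGunport m n T ∧ (holes m n T).card = k} := by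
      refine ⟨10 * (m * n) + 20, ?_⟩
      rintro k ⟨T, hT, rfl⟩
      have := bound m n hm hn T hT
      omega
    obtain ⟨T, hT, hk⟩ := Nat.sSup_mem h hb
    have := bound m n hm hn T hT
    rw [hk] at this
    exact this

/-- **Pearce's formula for the gunport problem fails, and the deficiency is unbounded.**
(1) If `3 ∤ m` and `3 ∤ n`, then `G(m, n) ≤ (m n + 2) / 3 - ⌊min(m, n) / 6⌋ / 30`.
(2) In particular the conjectured value is too large for all `m, n ≥ 366` with `3 ∤ m`, `3 ∤ n`.
(3) Hence the conjectured formula is false. -/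
theorem result :
    (∀ m n : ℕ, ¬ 3 ∣ m → ¬ 3 ∣ n → 30 * G m n + min m n / 6 ≤ 10 * (m * n) + 20) ∧
    (∀ m n : ℕ, 366 ≤ m → 366 ≤ n → ¬ 3 ∣ m → ¬ 3 ∣ n →
      (m % 3 = n % 3 → G m n < (m * n - 4) / 3) ∧
      (m % 3 ≠ n % 3 → G m n < (m * n - 2) / 3)) ∧
    ¬ (∀ m n : ℕ, 2 ≤ m → 2 ≤ n → ¬ 3 ∣ m → ¬ 3 ∣ n →
      G m n = if m % 3 = n % 3 then (m * n - 4) / 3 else (m * n - 2) / 3) := by
  have key : ∀ m n : ℕ, 366 ≤ m → 366 ≤ n → ¬ 3 ∣ m → ¬ 3 ∣ n →
      (m % 3 = n % 3 → G m n < (m * n - 4) / 3) ∧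
      (m % 3 ≠ n % 3 → G m n < (m * n - 2) / 3) := by
    intro m n hm hn hm3 hn3
    have hb := boundG m n hm3 hn3
    have hmin : 366 ≤ min m n := le_min hm hn
    have hmod := Nat.mul_mod m n 3
    have h1 : m % 3 = 1 ∨ m % 3 = 2 := by omega
    have h2 : n % 3 = 1 ∨ n % 3 = 2 := by omega
    generalize m * n = x at *
    rcases h1 with h1 | h1 <;> rcases h2 with h2 | h2 <;> rw [h1, h2] at hmod <;>
      constructor <;> intro h3 <;> omega
  refine ⟨boundG, key, fun h => ?_⟩
  have h1 := h 367 367 (by norm_num) (by norm_num) (by norm_num) (by norm_num)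
  have h2 := (key 367 367 (by norm_num) (by norm_num) (by norm_num) (by norm_num)).1 rfl
  rw [if_pos rfl] at h1
  omega

end Pool.Agent.Results.MP_290120_co.GunportDeficiency
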